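import Mathlib

/-!
# The calculus of the linearized Ihara action on lists of points

The points are `y_0, …, y_(s-1)` (a list) and a root `q`. The parent `p` of the first point is optional.
-/

set_option autoImplicit false

namespace Pool.Agent.D0H20.BK

section defs

variable {A : Type*} [CommRing A]

/-- the kernel with an optional first point -/
def ko (b : ℕ) : Option A → A → A
  | none, _ => 0
  | some x, y => (x - y) ^ (2 * b)

/-- the action of the letter `b` -/
def D (b : ℕ) : Option A → List A → A → (List A → A) → A
  | _, [], _, _ => 0
  | p, y :: ys, q, F =>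
      ((y - ys.headD q) ^ (2 * b) - ko b p y) * F ys + D b (some y) ys q (fun l => F (y :: l))

/-- the action of a word on `1` -/
def R : List ℕ → Option A → List A → A → A
  | [], _, [], _ => 1
  | [], _, _ :: _, _ => 0
  | b :: u, p, ys, q => D b p ys q (fun l => R u p l q)

/-- sum over the shuffles -/
def sh : List A → List A → (List A → A) → A
  | [], zs, G => G zs
  | y :: ys, [], G => G (y :: ys)
  | y :: ys, z :: zs, G =>
      sh ys (z :: zs) (fun l => G (y :: l)) + sh (y :: ys) zs (fun l => G (z :: l))
termination_by ys zs => ys.length + zs.length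

/-- sum over the decompositions of a word in two subwords -/
def unsh : List ℕ → (List ℕ → List ℕ → A) → A
  | [], G => G [] []
  | b :: u, G => unsh u (fun v w => G (b :: v) w) + unsh u (fun v w => G v (b :: w))

/-- sum over the marked points of a list -/
def dec : List A → (List A → A → List A → A) → A
  | [], _ => 0
  | z :: zs, G => G [] z zs + dec zs (fun l x r => G (z :: l) x r)

end defs

section lin

variable {A : Type*} [CommRing A]

lemma ksymm (b : ℕ) (x y : A) : (x - y) ^ (2 * b) = (y - x) ^ (2 * b) := by
  rw [← neg_sub y x, Even.neg_pow (even_two_mul b)]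

@[simp] lemma ko_none (b : ℕ) (y : A) : ko b none y = 0 := rfl
@[simp] lemma ko_some (b : ℕ) (x y : A) : ko b (some x) y = (x - y) ^ (2 * b) := rfl
@[simp] lemma D_nil (b : ℕ) (p : Option A) (q : A) (F : List A → A) : D b p [] q F = 0 := rfl
lemma D_cons (b : ℕ) (p : Option A) (y : A) (ys : List A) (q : A) (F : List A → A) :
    D b p (y :: ys) q F =
      ((y - ys.headD q) ^ (2 * b) - ko b p y) * F ys + D b (some y) ys q (fun l => F (y :: l)) := rfl

lemma R_cons (b : ℕ) (u : List ℕ) (p : Option A) (ys : List A) (q : A) :
    R (b :: u) p ys q = D b p ys q (fun l => R u p l q) := by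
  cases ys <;> rfl

@[simp] lemma R_nil_nil (p : Option A) (q : A) : R [] p [] q = 1 := rfl
@[simp] lemma R_nil_cons (p : Option A) (y : A) (ys : List A) (q : A) : R [] p (y :: ys) q = 0 := rfl
@[simp] lemma R_cons_nil (b : ℕ) (u : List ℕ) (p : Option A) (q : A) : R (b :: u) p [] q = 0 := rfl

lemma D_congr (b : ℕ) (ys : List A) (q : A) : ∀ (p : Option A) (F G : List A → A)
    (_ : ∀ l, l.length + 1 = ys.length → (∀ x ∈ l, x ∈ ys) → F l = G l), D b p ys q F = D b p ys q G := by
  induction ys with
  | nil => intros; rfl
  | cons y ys ih =>
    intro p F G h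
    rw [D_cons, D_cons, h ys rfl (fun x hx => List.mem_cons_of_mem _ hx),
      ih (some y) _ (fun l => G (y :: l)) (fun l hl hx => h (y :: l) (by simp [hl]) (by
        intro x hx'
        rcases List.mem_cons.1 hx' with rfl | hx'
        · exact List.mem_cons_self
        · exact List.mem_cons_of_mem _ (hx x hx')))]

lemma D_add (b : ℕ) (ys : List A) (q : A) : ∀ (p : Option A) (F G : List A → A),
    D b p ys q (fun l => F l + G l) = D b p ys q F + D b p ys q G := by
  induction ys with
  | nil => intros; simp
  | cons y ys ih =>
    intro p F G
    rw [D_cons, D_cons, D_cons, ih]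
    ring

lemma D_mul (b : ℕ) (ys : List A) (q : A) (c : A) : ∀ (p : Option A) (F : List A → A),
    D b p ys q (fun l => c * F l) = c * D b p ys q F := by
  induction ys with
  | nil => intros; simp
  | cons y ys ih =>
    intro p F
    rw [D_cons, D_cons, ih]
    ring

lemma D_mul_right (b : ℕ) (ys : List A) (q : A) (c : A) (p : Option A) (F : List A → A) :
    D b p ys q (fun l => F l * c) = D b p ys q F * c := by
  rw [mul_comm, ← D_mul]
  simp only [mul_comm]

lemma D_sub (b : ℕ) (ys : List A) (q : A) (p : Option A) (F G : List A → A) :
    D b p ys q (fun l => F l - G l) = D b p ys q F - D b p ys q G := by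
  have h := D_add b ys q p (fun l => F l - G l) G
  simp only [sub_add_cancel] at h
  rw [h]
  ring

lemma D_zero (b : ℕ) (ys : List A) (q : A) (p : Option A) : D b p ys q (fun _ => 0) = 0 := by
  have h := D_mul b ys q 0 p (fun _ => 0)
  simpa using h

lemma unsh_add (w : List ℕ) : ∀ (F G : List ℕ → List ℕ → A),
    unsh w (fun v u => F v u + G v u) = unsh w F + unsh w G := by
  induction w with
  | nil => intros; rfl
  | cons b w ih => intro F G; simp only [unsh]; rw [ih, ih]; ring

lemma unsh_mul (w : List ℕ) (c : A) : ∀ (F : List ℕ → List ℕ → A),
    unsh w (fun v u => c * F v u) = c * unsh w F := by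
  induction w with
  | nil => intros; rfl
  | cons b w ih => intro F; simp only [unsh]; rw [ih, ih]; ring

lemma unsh_mul_right (w : List ℕ) (c : A) (F : List ℕ → List ℕ → A) :
    unsh w (fun v u => F v u * c) = unsh w F * c := by
  rw [mul_comm, ← unsh_mul]
  simp only [mul_comm]

lemma unsh_comm (w : List ℕ) : ∀ (F : List ℕ → List ℕ → A),
    unsh w F = unsh w (fun v u => F u v) := by
  induction w with
  | nil => intros; rfl
  | cons b w ih => intro F; simp only [unsh]; rw [ih, ih (fun v u => F v (b :: u))]; ring

lemma D_unsh (b : ℕ) (ys : List A) (q : A) (p : Option A) (w : List ℕ) :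
    ∀ (G : List A → List ℕ → List ℕ → A),
    D b p ys q (fun l => unsh w (G l)) = unsh w (fun v u => D b p ys q (fun l => G l v u)) := by
  induction w with
  | nil => intro G; rfl
  | cons c w ih =>
    intro G
    simp only [unsh]
    rw [D_add, ih, ih]

end lin

section shuffle

variable {A : Type*} [CommRing A]

@[simp] lemma sh_nil_left (zs : List A) (G : List A → A) : sh [] zs G = G zs := by rw [sh]
@[simp] lemma sh_nil_right (ys : List A) (G : List A → A) : sh ys [] G = G ys := by
  cases ys with
  | nil => rw [sh]
  | cons y ys => rw [sh]
lemma sh_cons_cons (y z : A) (ys zs : List A) (G : List A → A) :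
    sh (y :: ys) (z :: zs) G =
      sh ys (z :: zs) (fun l => G (y :: l)) + sh (y :: ys) zs (fun l => G (z :: l)) := by rw [sh]

lemma sh_add (n : ℕ) : ∀ (ys zs : List A) (_ : ys.length + zs.length = n) (F G : List A → A),
    sh ys zs (fun l => F l + G l) = sh ys zs F + sh ys zs G := by
  induction n with
  | zero =>
    intro ys zs h F G
    have h1 : ys = [] := List.length_eq_zero_iff.1 (by omega)
    subst h1
    simp
  | succ n ih =>
    intro ys zs h F G
    cases ys with
    | nil => simp
    | cons y ys =>
      cases zs with
      | nil => simp
      | cons z zs =>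
        rw [sh_cons_cons, sh_cons_cons, sh_cons_cons, ih ys (z :: zs) (by simp at h ⊢; omega),
          ih (y :: ys) zs (by simp at h ⊢; omega)]
        ring

lemma sh_mul (n : ℕ) (c : A) : ∀ (ys zs : List A) (_ : ys.length + zs.length = n) (F : List A → A),
    sh ys zs (fun l => c * F l) = c * sh ys zs F := by
  induction n with
  | zero =>
    intro ys zs h F
    have h1 : ys = [] := List.length_eq_zero_iff.1 (by omega)
    subst h1
    simp
  | succ n ih =>
    intro ys zs h F
    cases ys with
    | nil => simp
    | cons y ys =>
      cases zs with
      | nil => simp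
      | cons z zs =>
        rw [sh_cons_cons, sh_cons_cons, ih ys (z :: zs) (by simp at h ⊢; omega),
          ih (y :: ys) zs (by simp at h ⊢; omega)]
        ring

/-- one half of the telescope -/
lemma sh_half (b : ℕ) (y z q : A) (ys zs : List A) (F : List A → A) :
    sh ys (z :: zs) (fun l => (y - l.headD q) ^ (2 * b) * F l) +
      ((y - ys.headD q) ^ (2 * b) - (z - y) ^ (2 * b)) * sh ys zs (fun l => F (z :: l)) =
    (y - ys.headD q) ^ (2 * b) * sh ys (z :: zs) F := by
  cases ys with
  | nil =>
    simp only [sh_nil_left, List.headD_cons, List.headD_nil]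
    rw [ksymm b z y]
    ring
  | cons y' ys =>
    rw [sh_cons_cons, sh_cons_cons]
    simp only [List.headD_cons]
    rw [sh_mul _ _ _ _ rfl, sh_mul _ _ _ _ rfl, ksymm b z y]
    ring

/-- **The Leibniz rule.** -/
lemma sh_D (b : ℕ) (q : A) (n : ℕ) : ∀ (ys zs : List A) (_ : ys.length + zs.length = n) (p : Option A)
    (F : List A → A), sh ys zs (fun l => D b p l q F) =
      D b p ys q (fun l => sh l zs F) + D b p zs q (fun l => sh ys l F) := by
  induction n with
  | zero =>
    intro ys zs h p F
    have h1 : ys = [] := List.length_eq_zero_iff.1 (by omega)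
    subst h1
    simp
  | succ n ih =>
    intro ys zs h p F
    cases ys with
    | nil => simp
    | cons y ys =>
      cases zs with
      | nil => simp
      | cons z zs =>
        have hl1 : ys.length + (z :: zs).length = n := by simp at h ⊢; omega
        have hl2 : (y :: ys).length + zs.length = n := by simp at h ⊢; omega
        rw [sh_cons_cons]
        simp only [D_cons, sub_mul]
        rw [sh_add _ _ _ rfl, sh_add _ _ _ rfl, ih _ _ hl1, ih _ _ hl2]
        have e1 : ∀ (c : A) (ys zs : List A) (G H : List A → A),
            sh ys zs (fun l => H l - c * G l) = sh ys zs H - c * sh ys zs G := by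
          intro c ys zs G H
          have h1 := sh_add _ ys zs rfl (fun l => H l) (fun l => (-c) * G l)
          rw [sh_mul _ _ _ _ rfl] at h1
          have h2 : (fun l => H l - c * G l) = (fun l => H l + (-c) * G l) := by
            funext l; ring
          rw [h2, h1]
          ring
        rw [e1, e1]
        have h3 := sh_half b y z q ys zs F
        have h4 := sh_half b z y q zs ys F
        have hsc : ∀ (n : ℕ) (ys zs : List A) (_ : ys.length + zs.length = n) (F : List A → A),
            sh ys zs F = sh zs ys F := by
          intro n
          induction n with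
          | zero =>
            intro ys zs h F
            have h1 : ys = [] := List.length_eq_zero_iff.1 (by omega)
            subst h1
            simp
          | succ n ih =>
            intro ys zs h F
            cases ys with
            | nil => simp
            | cons y ys =>
              cases zs with
              | nil => simp
              | cons z zs =>
                rw [sh_cons_cons, sh_cons_cons, ih ys (z :: zs) (by simp at h ⊢; omega),
                  ih (y :: ys) zs (by simp at h ⊢; omega)]
                ring
        rw [hsc _ zs (y :: ys) rfl, hsc _ zs (y :: ys) rfl, hsc _ zs ys rfl] at h4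
        simp only [D_cons, sh_cons_cons, ko_some]
        rw [D_add, D_add]
        linear_combination h3 + h4

lemma sh_comm (n : ℕ) : ∀ (ys zs : List A) (_ : ys.length + zs.length = n) (F : List A → A),
    sh ys zs F = sh zs ys F := by
  induction n with
  | zero =>
    intro ys zs h F
    have h1 : ys = [] := List.length_eq_zero_iff.1 (by omega)
    subst h1
    simp
  | succ n ih =>
    intro ys zs h F
    cases ys with
    | nil => simp
    | cons y ys =>
      cases zs with
      | nil => simp
      | cons z zs =>
        rw [sh_cons_cons, sh_cons_cons, ih ys (z :: zs) (by simp at h ⊢; omega),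
          ih (y :: ys) zs (by simp at h ⊢; omega)]
        ring

lemma sh_congr (n : ℕ) : ∀ (ys zs : List A) (_ : ys.length + zs.length = n) (F G : List A → A)
    (_ : ∀ l, l.length = ys.length + zs.length → F l = G l), sh ys zs F = sh ys zs G := by
  induction n with
  | zero =>
    intro ys zs h F G hFG
    have h1 : ys = [] := List.length_eq_zero_iff.1 (by omega)
    subst h1
    simp only [sh_nil_left]
    exact hFG zs (by simp)
  | succ n ih =>
    intro ys zs h F G hFG
    cases ys with
    | nil => simp only [sh_nil_left]; exact hFG zs (by simp)
    | cons y ys =>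
      cases zs with
      | nil => simp only [sh_nil_right]; exact hFG _ (by simp)
      | cons z zs =>
        rw [sh_cons_cons, sh_cons_cons,
          ih ys (z :: zs) (by simp at h ⊢; omega) _ (fun l => G (y :: l))
            (fun l hl => hFG _ (by simp at hl ⊢; omega)),
          ih (y :: ys) zs (by simp at h ⊢; omega) _ (fun l => G (z :: l))
            (fun l hl => hFG _ (by simp at hl ⊢; omega))]

lemma sh_zero (ys zs : List A) : sh ys zs (fun _ => 0) = 0 := by
  have h := sh_mul _ 0 ys zs rfl (fun _ => 0)
  simpa using h

/-- **The action of a word and shuffles.** -/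
lemma sh_R (q : A) (p : Option A) (w : List ℕ) : ∀ (ys zs : List A),
    sh ys zs (fun l => R w p l q) = unsh w (fun v u => R v p ys q * R u p zs q) := by
  induction w with
  | nil =>
    intro ys zs
    simp only [unsh]
    cases ys with
    | nil => simp
    | cons y ys =>
      cases zs with
      | nil => simp
      | cons z zs =>
        rw [sh_cons_cons]
        simp only [R_nil_cons]
        rw [sh_zero, sh_zero]
        ring
  | cons b w ih =>
    intro ys zs
    simp only [R_cons, unsh]
    rw [sh_D _ _ _ _ _ rfl]
    simp only [ih]
    rw [D_unsh, D_unsh]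
    congr 1
    · congr 1
      funext v u
      rw [D_mul_right]
    · congr 1
      funext v u
      rw [D_mul]

end shuffle

section marked

variable {A : Type*} [CommRing A]

@[simp] lemma dec_nil (G : List A → A → List A → A) : dec [] G = 0 := rfl
lemma dec_cons (z : A) (zs : List A) (G : List A → A → List A → A) :
    dec (z :: zs) G = G [] z zs + dec zs (fun l x r => G (z :: l) x r) := rfl

lemma dec_add (zs : List A) : ∀ (F G : List A → A → List A → A),
    dec zs (fun l x r => F l x r + G l x r) = dec zs F + dec zs G := by
  induction zs with
  | nil => intros; simp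
  | cons z zs ih => intro F G; rw [dec_cons, dec_cons, dec_cons, ih]; ring

lemma dec_mul (zs : List A) (c : A) : ∀ (F : List A → A → List A → A),
    dec zs (fun l x r => c * F l x r) = c * dec zs F := by
  induction zs with
  | nil => intros; simp
  | cons z zs ih => intro F; rw [dec_cons, dec_cons, ih]; ring

lemma dec_snoc (zs : List A) (z : A) : ∀ (G : List A → A → List A → A),
    dec (zs ++ [z]) G = dec zs (fun l x r => G l x (r ++ [z])) + G zs z [] := by
  induction zs with
  | nil => intro G; simp [dec_cons]
  | cons y zs ih =>
    intro G
    rw [List.cons_append, dec_cons, dec_cons, ih]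
    ring

lemma dec_zero (zs : List A) : ∀ (G : List A → A → List A → A)
    (_ : ∀ l x r, zs = l ++ x :: r → G l x r = 0), dec zs G = 0 := by
  induction zs with
  | nil => intros; rfl
  | cons z zs ih =>
    intro G h
    rw [dec_cons, h [] z zs rfl, ih _ (fun l x r hl => h (z :: l) x r (by rw [hl]; rfl)), add_zero]

lemma dec_head (zs : List A) (q : A) (f : A → A) : ∀ (G : List A → A → List A → A),
    dec zs (fun l x r => f (l.headD x) * G l x r) = f (zs.headD q) * dec zs G := by
  cases zs with
  | nil => intro G; simp
  | cons z zs =>
    intro G
    rw [dec_cons, dec_cons]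
    simp only [List.headD_nil, List.headD_cons]
    rw [dec_mul]
    ring

/-- the action on a marked decomposition -/
lemma D_dec (b : ℕ) (q : A) (zs : List A) : ∀ (p : Option A) (G : List A → A → List A → A),
    D b p zs q (fun l => dec l G) =
      dec zs (fun l x r => D b p l x (fun l' => G l' x r) + D b (some x) r q (fun r' => G l x r')) := by
  induction zs with
  | nil => intros; rfl
  | cons z zs ih =>
    intro p G
    rw [D_cons, dec_cons]
    simp only [dec_cons, D_nil, zero_add, D_cons]
    rw [D_add, ih]
    have h := dec_head zs q (fun t => (z - t) ^ (2 * b) - ko b p z) G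
    rw [← h, add_left_comm, ← dec_add]
    congr 2
    funext l x r
    ring

/-- the marked sum for a word -/
def mk (q : A) (w : List ℕ) (zs : List A) : A :=
  dec zs (fun l x r => unsh w (fun v u => R v none l x * R u (some x) r q))

lemma dec_unsh (zs : List A) (w : List ℕ) : ∀ (G : List A → A → List A → List ℕ → List ℕ → A),
    dec zs (fun l x r => unsh w (G l x r)) = unsh w (fun v u => dec zs (fun l x r => G l x r v u)) := by
  induction w with
  | nil => intro G; rfl
  | cons c w ih =>
    intro G
    simp only [unsh]
    rw [dec_add, ih, ih]

lemma mk_cons (q : A) (b : ℕ) (w : List ℕ) (zs : List A) :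
    mk q (b :: w) zs = D b none zs q (fun l => mk q w l) := by
  unfold mk
  rw [D_dec]
  congr 1
  funext l x r
  simp only [unsh, R_cons]
  rw [D_unsh, D_unsh]
  congr 1
  · congr 1
    funext v u
    rw [D_mul_right]
  · congr 1
    funext v u
    rw [D_mul]

lemma mk_nil (q : A) : ∀ (zs : List A), mk q [] zs = if zs.length = 1 then 1 else 0 := by
  intro zs
  unfold mk
  simp only [unsh]
  cases zs with
  | nil => simp
  | cons z zs =>
    rw [dec_cons]
    simp only [R_nil_cons, zero_mul, R_nil_nil, one_mul]
    rw [dec_zero _ _ (fun _ _ _ _ => rfl)]
    cases zs with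
    | nil => simp
    | cons z' zs => simp

lemma mk_nil' (q : A) : ∀ (w : List ℕ), mk q w [] = 0 := by
  intro w
  unfold mk
  rfl

/-- **The marked sum.** -/
lemma mk_eq (q : A) (w : List ℕ) : ∀ (z : A) (zs : List A), mk q w (z :: zs) = R w none zs q := by
  induction w with
  | nil =>
    intro z zs
    rw [mk_nil]
    cases zs with
    | nil => simp
    | cons z' zs => simp
  | cons b w ih =>
    intro z zs
    rw [mk_cons, D_cons]
    cases zs with
    | nil => simp [mk_nil']
    | cons z' zs =>
      simp only [ih, ko_none, sub_zero, List.headD_cons, R_cons, D_cons, ko_some]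
      ring

/-- **The cyclic identity.** -/
lemma cyc (q : A) (w : List ℕ) (z y : A) (zs : List A) :
    R w none (zs ++ [y]) q = R w (some z) (zs ++ [y]) q + R w none (z :: zs) y +
      dec zs (fun l x r => unsh w (fun v u => R v none (z :: l) x * R u (some x) (r ++ [y]) q)) := by
  rw [← mk_eq q w z (zs ++ [y])]
  unfold mk
  rw [dec_cons, dec_snoc]
  have h1 : ∀ (w : List ℕ) (F : List ℕ → A), unsh w (fun v u => R v none ([] : List A) z * F u) = F w := by
    intro w
    induction w with
    | nil => intro F; simp [unsh]
    | cons b w ih =>
      intro F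
      simp only [unsh, R_cons_nil, zero_mul]
      rw [ih (fun u => F (b :: u))]
      have : unsh w (fun _ _ => (0 : A)) = 0 := by
        have h := unsh_mul w (0 : A) (fun _ _ => 0)
        simpa using h
      rw [this, zero_add]
  have h2 : ∀ (w : List ℕ) (F : List ℕ → A),
      unsh w (fun v u => F v * R u (some y) ([] : List A) q) = F w := by
    intro w
    induction w with
    | nil => intro F; simp [unsh]
    | cons b w ih =>
      intro F
      simp only [unsh, R_cons_nil, mul_zero]
      rw [ih (fun u => F (b :: u))]
      have : unsh w (fun _ _ => (0 : A)) = 0 := by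
        have h := unsh_mul w (0 : A) (fun _ _ => 0)
        simpa using h
      rw [this, add_zero]
  rw [h1 w (fun u => R u (some z) (zs ++ [y]) q), h2 w (fun v => R v none (z :: zs) y)]
  ring

end marked

end Pool.Agent.D0H20.BK
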