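import Pool.Agent.D0H20.BK.Main

/-!
# The chord formula for the iterated brackets
-/

set_option autoImplicit false

namespace Pool.Agent.D0H20.BK

section chord

variable {A : Type*} [CommRing A]

/-- the last point, with a default -/
def lastO : Option A → List A → Option A
  | p, [] => p
  | _, x :: xs => lastO (some x) xs

omit [CommRing A] in
lemma lastO_append (xs : List A) : ∀ (p : Option A) (x : A), lastO p (xs ++ [x]) = some x := by
  induction xs with
  | nil => intros; rfl
  | cons y ys ih => intro p x; exact ih (some y) x

omit [CommRing A] in
lemma lastO_reverse (zs : List A) (q : A) : lastO (some q) zs.reverse = some (zs.headD q) := by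
  cases zs with
  | nil => rfl
  | cons z zs => rw [List.reverse_cons, lastO_append]; rfl

lemma D_append (b : ℕ) (q : A) (B : List A) (L : List A) : ∀ (p : Option A) (F : List A → A),
    D b p (L ++ B) q F = D b p L (B.headD q) (fun l => F (l ++ B)) +
      D b (lastO p L) B q (fun l => F (L ++ l)) := by
  induction L with
  | nil => intro p F; simp [lastO]
  | cons y L ih =>
    intro p F
    rw [List.cons_append, D_cons, D_cons, ih (some y)]
    have h1 : (L ++ B).headD q = L.headD (B.headD q) := by cases L <;> rfl
    rw [h1]
    simp only [lastO, List.cons_append]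
    ring

/-- reflection -/
lemma D_refl (b : ℕ) (q : A) (zs : List A) : ∀ (p : A) (F : List A → A),
    D b (some p) zs q F = - D b (some q) zs.reverse p (fun l => F l.reverse) := by
  induction zs with
  | nil => intro p F; simp
  | cons z zs ih =>
    intro p F
    rw [List.reverse_cons, D_append, D_cons, ih z, lastO_reverse, D_cons]
    simp only [List.headD_cons, List.headD_nil, D_nil, List.append_nil, List.reverse_reverse, ko_some,
      List.reverse_append, List.reverse_singleton, List.singleton_append]
    rw [ksymm b z (zs.headD q), ksymm b p z]
    ring

/-- the cyclic form of the bracket -/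
def Cy (b : ℕ) : List ℕ → List A → A
  | [], [x, y] => (x - y) ^ (2 * b)
  | [], _ => 0
  | a :: w, z => D a z.getLast? z (z.headD 0) (fun l => Cy b w l)

lemma Cy_cons (b a : ℕ) (w : List ℕ) (z : List A) :
    Cy b (a :: w) z = D a z.getLast? z (z.headD 0) (fun l => Cy b w l) := rfl

lemma Cy_refl (b : ℕ) (w : List ℕ) : ∀ z : List A, Cy b w z.reverse = (-1) ^ w.length * Cy b w z := by
  induction w with
  | nil =>
    intro z
    match z with
    | [] => simp [Cy]
    | [x] => simp [Cy]
    | [x, y] => simp [Cy, ksymm b y x]
    | x :: y :: t :: z =>
      have h1 : Cy b [] (x :: y :: t :: z) = 0 := rfl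
      rw [h1, mul_zero]
      have h2 : ((x :: y :: t :: z).reverse).length = z.length + 3 := by simp
      match (x :: y :: t :: z).reverse, h2 with
      | _ :: _ :: _ :: _, _ => rfl
  | cons a w ih =>
    intro z
    rcases List.eq_nil_or_concat z with rfl | ⟨zs, y, rfl⟩
    · simp [Cy]
    · rw [List.concat_eq_append, Cy_cons, Cy_cons, List.reverse_append, List.reverse_singleton,
        List.singleton_append, List.getLast?_append, List.getLast?_singleton]
      have h1 : (y :: zs.reverse).getLast? = some ((zs ++ [y]).headD 0) := by
        cases zs with
        | nil => rfl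
        | cons x xs =>
          rw [List.reverse_cons, ← List.cons_append, List.getLast?_append]
          rfl
      rw [h1, List.headD_cons]
      have h2 := D_refl a ((zs ++ [y]).headD 0) (zs ++ [y]) y (fun l => Cy b w l)
      rw [List.reverse_append, List.reverse_singleton, List.singleton_append] at h2
      simp only [Option.some_or]
      rw [h2]
      simp only [ih]
      rw [D_mul, List.length_cons, pow_succ]
      have h3 : ((-1 : A) ^ w.length) * ((-1 : A) ^ w.length) = 1 := by
        rw [← mul_pow]; simp
      linear_combination
        (-(D a (some ((zs ++ [y]).headD 0)) (y :: zs.reverse) y fun l => Cy b w l)) * h3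

/-- the bracket is cyclic -/
lemma Br_Cy (b : ℕ) (w : List ℕ) : ∀ (ys : List A) (q : A), ys.length = w.length + 1 →
    Br b w ys q = Cy b w (ys ++ [q]) := by
  induction w with
  | nil =>
    intro ys q h
    match ys, h with
    | [x], _ => rfl
  | cons a w ih =>
    intro ys q h
    match ys, h with
    | y :: ys, h =>
      have hl : ys.length = w.length + 1 := by simpa using h
      rw [Br_cons, Cy_cons, List.getLast?_append, List.getLast?_singleton]
      simp only [Option.some_or, List.cons_append, List.headD_cons]
      rw [← List.cons_append, D_append, List.headD_cons, D_cons, D_cons, D_cons]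
      simp only [List.headD_nil, D_nil, add_zero, List.append_nil, ko_none, sub_zero, ko_some]
      have h1 : D a (some y) ys q (fun l => Br b w (y :: l) q) =
          D a (some y) ys q (fun l => Cy b w (y :: l ++ [q])) := by
        apply D_congr
        intro l hl' _
        exact ih (y :: l) q (by simp; omega)
      have h2 : Br b w ys q = Cy b w (ys ++ [q]) := ih ys q hl
      have h3 : Br b w ((y :: ys).dropLast) (ys.getLastD y) = Cy b w (y :: ys) := by
        rw [ih _ _ (by simp [hl])]
        congr 1
        have h4 : (y :: ys).getLast (by simp) = ys.getLastD y := by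
          rw [List.getLast_eq_getLastD]
        rw [← h4]
        exact List.dropLast_append_getLast _
      have h5 : Br b w ys.reverse y = (-1) ^ w.length * Cy b w (y :: ys) := by
        rw [ih _ _ (by simp [hl]), ← List.reverse_cons, Cy_refl]
      have h6 : ko a (lastO (some q) (y :: ys)) q = (ys.getLastD y - q) ^ (2 * a) := by
        have : ∀ (ys : List A) (y : A) (p : Option A), lastO p (y :: ys) = some (ys.getLastD y) := by
          intro ys
          induction ys with
          | nil => intros; rfl
          | cons z zs ihz => intro y p; rw [List.getLastD_cons]; exact ihz z (some y)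
        rw [this]
        rfl
      rw [h1, h2, h3, h5, h6, hl, ksymm a q y]
      have h7 : ((-1 : A) ^ w.length) * ((-1 : A) ^ w.length) = 1 := by
        rw [← mul_pow]; simp
      linear_combination ((y - q) ^ (2 * a) * Cy b w (y :: ys)) * h7

lemma dec_congr (zs : List A) : ∀ (F G : List A → A → List A → A)
    (_ : ∀ l x r, zs = l ++ x :: r → F l x r = G l x r), dec zs F = dec zs G := by
  induction zs with
  | nil => intros; rfl
  | cons z zs ih =>
    intro F G h
    rw [dec_cons, dec_cons, h [] z zs rfl, ih _ (fun l x r => G (z :: l) x r) (fun l x r hl =>
      h (z :: l) x r (by rw [hl]; rfl))]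

lemma D_dec_comm (b : ℕ) (ys : List A) (q : A) (p : Option A) (rest : List A) :
    ∀ (G : List A → List A → A → List A → A),
    D b p ys q (fun l => dec rest (G l)) =
      dec rest (fun l x r => D b p ys q (fun l' => G l' l x r)) := by
  induction rest with
  | nil => intro G; simp [D_zero]
  | cons z zs ih =>
    intro G
    simp only [dec_cons]
    rw [D_add, ih]

/-- **The chord formula.** -/
lemma chord (b : ℕ) (w : List ℕ) : ∀ z : List A, Cy b w z =
    dec z (fun pre x rest => dec rest (fun mid x' post => (x - x') ^ (2 * b) *
      unsh w (fun v u => R v (some x) mid x' * R u (some x') (post ++ pre) x))) := by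
  induction w with
  | nil =>
    intro z
    simp only [unsh]
    match z with
    | [] => rfl
    | [x] => simp [dec_cons, Cy]
    | [x, y] => simp [dec_cons, Cy]
    | x :: y :: t :: z =>
      have h1 : Cy b [] (x :: y :: t :: z) = 0 := rfl
      rw [h1]
      symm
      apply dec_zero
      intro pre x' rest h2
      apply dec_zero
      intro mid x'' post h3
      have h4 : (x :: y :: t :: z).length = (pre ++ x' :: (mid ++ x'' :: post)).length := by
        rw [h2, h3]
      simp only [List.length_cons, List.length_append] at h4
      cases mid with
      | cons m mid => simp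
      | nil =>
        have h5 : (post ++ pre).length ≠ 0 := by
          simp only [List.length_nil] at h4
          rw [List.length_append]
          omega
        match post ++ pre, h5 with
        | _ :: _, _ => simp
  | cons a w ih =>
    intro z
    rw [Cy_cons]
    simp only [ih]
    rw [D_dec]
    apply dec_congr
    intro pre x rest hz
    rw [D_dec_comm, D_dec, ← dec_add]
    apply dec_congr
    intro mid x' post hrest
    have hL : z.getLast? = lastO (some x') post := by
      rw [hz, hrest]
      have : ∀ (post : List A) (x' : A) (l : List A), (l ++ x' :: post).getLast? =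
          lastO (some x') post := by
        intro post
        induction post with
        | nil => intro x' l; rw [List.getLast?_append]; rfl
        | cons t post iht =>
          intro x' l
          have := iht t (l ++ [x'])
          rw [List.append_assoc, List.singleton_append] at this
          exact this
      rw [← List.cons_append, ← List.append_assoc]
      exact this post x' _
    have hh : z.headD 0 = pre.headD x := by
      rw [hz]
      cases pre <;> rfl
    rw [hL, hh]
    have h1 := D_append a x pre post (some x') (fun l => (x - x') ^ (2 * b) *
      unsh w (fun v u => R v (some x) mid x' * R u (some x') l x))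
    simp only [unsh, R_cons]
    have h2 : unsh w (fun v u => R v (some x) mid x' *
        D a (some x') (post ++ pre) x fun l => R u (some x') l x) =
        D a (some x') (post ++ pre) x (fun l =>
          unsh w (fun v u => R v (some x) mid x' * R u (some x') l x)) := by
      rw [D_unsh]
      congr 1
      funext v u
      rw [D_mul]
    have h3 : unsh w (fun v u => (D a (some x) mid x' fun l => R v (some x) l x') *
        R u (some x') (post ++ pre) x) =
        D a (some x) mid x' (fun l =>
          unsh w (fun v u => R v (some x) l x' * R u (some x') (post ++ pre) x)) := by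
      rw [D_unsh]
      congr 1
      funext v u
      rw [D_mul_right]
    rw [h2, h3, mul_add, ← D_mul, ← D_mul, h1]
    ring

end chord

/-- the products of two factors vanish -/
lemma coideal (s : ℕ) (U : List (ℚ × List ℕ))
    (hU : ∀ (ys : List ℚ) (q : ℚ), ys.length = s → ev U (fun w => R w none ys q) = 0)
    (ys zs : List ℚ) (x x' : ℚ) (h : ys.length + zs.length = s) :
    ev U (fun w => unsh w (fun v u => R v none ys x * R u none zs x')) = 0 := by
  have h1 : ∀ u : List ℕ, R u none zs x' =
      R u none (zs.map (fun t => 1 * t + (x - x'))) x := by
    intro u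
    have := R_aff 1 (x - x') u none zs x'
    rw [one_pow, one_mul, one_mul, Option.map_none, add_sub_cancel] at this
    exact this.symm
  simp only [h1]
  simp only [← sh_R]
  rw [ev_sh U _ ys (zs.map (fun t => 1 * t + (x - x'))) rfl (fun w l => R w none l x),
    sh_congr _ _ _ rfl _ (fun _ => 0) (fun l hl => hU l x (by rw [hl, List.length_map, h])), sh_zero]

/-- all parents -/
lemma coideal_R (s : ℕ) : ∀ (U : List (ℚ × List ℕ))
    (_ : ∀ (ys : List ℚ) (q : ℚ), ys.length = s → ev U (fun w => R w none ys q) = 0)
    (ys : List ℚ) (p : Option ℚ) (q : ℚ), ys.length = s → ev U (fun w => R w p ys q) = 0 := by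
  induction s using Nat.strong_induction_on with
  | _ s ih =>
  intro U hU ys p q hys
  cases p with
  | none => exact hU ys q hys
  | some z =>
    rcases List.eq_nil_or_concat ys with rfl | ⟨zs, y, rfl⟩
    · refine Eq.trans ?_ (hU [] q hys)
      apply ev_congr
      intro a _
      cases a.2 <;> rfl
    · rw [List.concat_eq_append] at hys ⊢
      rw [List.length_append, List.length_singleton] at hys
      have h1 : ∀ w, R w none (zs ++ [y]) q = R w (some z) (zs ++ [y]) q + R w none (z :: zs) y +
        dec zs (fun l x r => unsh w (fun v u => R v none (z :: l) x * R u (some x) (r ++ [y]) q)) :=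
        fun w => cyc q w z y zs
      have h2 := hU (zs ++ [y]) q (by simp; omega)
      rw [funext h1, ev_add, ev_add, ev_dec, hU (z :: zs) y (by simp; omega)] at h2
      rw [dec_zero zs _ (fun l x r hl => ?_), add_zero, add_zero] at h2
      · exact h2
      · have h3 : ∀ w, unsh w (fun v u => R v none (z :: l) x * R u (some x) (r ++ [y]) q) =
            unsh w (fun v u => R u none (z :: l) x * R v (some x) (r ++ [y]) q) :=
          fun w => unsh_comm w _
        simp only [h3]
        rw [← ev_con U (fun u => R u none (z :: l) x) (fun v => R v (some x) (r ++ [y]) q)]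
        have h4 : zs.length = l.length + (r.length + 1) := by rw [hl]; simp
        apply ih (r.length + 1) (by omega) _ _ _ _ _ (by simp)
        intro ys' q' hys'
        rw [ev_con]
        have h5 : ∀ w, unsh w (fun v u => R u none (z :: l) x * R v none ys' q') =
            unsh w (fun v u => R v none (z :: l) x * R u none ys' q') := fun w => unsh_comm w _
        simp only [h5]
        exact coideal s U hU (z :: l) ys' x q' (by simp; omega)

lemma coideal_RR (s : ℕ) (U : List (ℚ × List ℕ))
    (hU : ∀ (ys : List ℚ) (q : ℚ), ys.length = s → ev U (fun w => R w none ys q) = 0)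
    (ys zs : List ℚ) (x x' : ℚ) (p p' : Option ℚ) (h : ys.length + zs.length = s) :
    ev U (fun w => unsh w (fun v u => R v p ys x * R u p' zs x')) = 0 := by
  have step1 : ∀ (ys zs : List ℚ) (x x' : ℚ) (p : Option ℚ) (_ : ys.length + zs.length = s),
      ev U (fun w => unsh w (fun v u => R u none zs x' * R v p ys x)) = 0 := by
    intro ys zs x x' p h
    rw [← ev_con U (fun u => R u none zs x') (fun v => R v p ys x)]
    apply coideal_R ys.length _ _ ys p x rfl
    intro ys' q' hys'
    rw [ev_con]
    have h5 : ∀ w, unsh w (fun v u => R u none zs x' * R v none ys' q') =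
        unsh w (fun v u => R v none zs x' * R u none ys' q') := fun w => unsh_comm w _
    simp only [h5]
    exact coideal s U hU zs ys' x' q' (by omega)
  have h3 : ∀ w, unsh w (fun v u => R v p ys x * R u p' zs x') =
      unsh w (fun v u => R u p ys x * R v p' zs x') := fun w => unsh_comm w _
  simp only [h3]
  rw [← ev_con U (fun u => R u p ys x) (fun v => R v p' zs x')]
  apply coideal_R zs.length _ _ zs p' x' rfl
  intro zs' q' hzs'
  rw [ev_con]
  have h5 : ∀ w, unsh w (fun v u => R u p ys x * R v none zs' q') =
      unsh w (fun v u => R u none zs' q' * R v p ys x) := by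
    intro w
    rw [unsh_comm]
    congr 1
    funext v u
    ring
  simp only [h5]
  exact step1 ys zs' x q' p (by omega)

lemma ev_mul (U : List (ℚ × List ℕ)) (c : ℚ) (f : List ℕ → ℚ) :
    ev U (fun w => c * f w) = c * ev U f := by
  induction U with
  | nil => simp [ev_nil]
  | cons a U ih => rw [ev_cons, ev_cons, ih]; ring

/-- **The converse.** -/
theorem Br_zero (s b : ℕ) (U : List (ℚ × List ℕ)) (hs : ∀ a ∈ U, a.2.length = s)
    (hU : ∀ (ys : List ℚ) (q : ℚ), ys.length = s → ev U (fun w => R w none ys q) = 0)
    (ys : List ℚ) (q : ℚ) (hys : ys.length = s + 1) : ev U (fun w => Br b w ys q) = 0 := by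
  have h1 : ev U (fun w => Br b w ys q) = ev U (fun w => Cy b w (ys ++ [q])) := by
    apply ev_congr
    intro a ha
    exact Br_Cy b a.2 ys q (by rw [hys, hs a ha])
  rw [h1]
  simp only [chord]
  rw [ev_dec]
  apply dec_zero
  intro pre x rest hz
  rw [ev_dec]
  apply dec_zero
  intro mid x' post hrest
  rw [ev_mul, coideal_RR s U hU, mul_zero]
  have h2 : (ys ++ [q]).length = (pre ++ x :: (mid ++ x' :: post)).length := by rw [hz, hrest]
  simp only [List.length_append, List.length_cons, List.length_nil] at h2 ⊢
  omega

end Pool.Agent.D0H20.BK
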