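import Pool.Agent.D0H20.BK.Main

/-!
# Symmetrization and the explicit bound
-/

set_option autoImplicit false

namespace Pool.Agent.D0H20.BK

open Finset

/-- sum over the permutations -/
def psum : List ℚ → (List ℚ → ℚ) → ℚ
  | [], G => G []
  | y :: ys, G => psum ys (fun l => sh [y] l G)

lemma psum_congr (ys : List ℚ) : ∀ (F G : List ℚ → ℚ) (_ : ∀ l, l.length = ys.length → F l = G l),
    psum ys F = psum ys G := by
  induction ys with
  | nil => intro F G h; exact h [] rfl
  | cons y ys ih =>
    intro F G h
    unfold psum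
    apply ih
    intro l hl
    apply sh_congr _ _ _ rfl
    intro l' hl'
    apply h
    simp only [List.length_cons, List.length_nil] at hl' ⊢
    omega

lemma psum_add (ys : List ℚ) : ∀ (F G : List ℚ → ℚ),
    psum ys (fun l => F l + G l) = psum ys F + psum ys G := by
  induction ys with
  | nil => intros; rfl
  | cons y ys ih =>
    intro F G
    simp only [psum]
    rw [← ih]
    congr 1
    funext l
    rw [sh_add _ _ _ rfl]

lemma psum_mul (ys : List ℚ) (c : ℚ) : ∀ (F : List ℚ → ℚ),
    psum ys (fun l => c * F l) = c * psum ys F := by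
  induction ys with
  | nil => intros; rfl
  | cons y ys ih =>
    intro F
    simp only [psum]
    rw [← ih]
    congr 1
    funext l
    rw [sh_mul _ _ _ _ rfl]

lemma psum_zero (ys : List ℚ) : psum ys (fun _ => 0) = 0 := by
  have h := psum_mul ys 0 (fun _ => 0)
  simpa using h

lemma psum_sum (ys : List ℚ) (S : Finset (List ℕ)) (f : List ℕ → ℚ) (F : List ℕ → List ℚ → ℚ) :
    psum ys (fun l => ∑ w ∈ S, f w * F w l) = ∑ w ∈ S, f w * psum ys (F w) := by
  induction S using Finset.induction_on with
  | empty => simp [psum_zero]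
  | insert a S ha ih =>
    simp only [sum_insert ha]
    rw [psum_add, psum_mul, ih]

lemma psum_unsh (ys : List ℚ) (w : List ℕ) : ∀ (F : List ℕ → List ℕ → List ℚ → ℚ),
    psum ys (fun l => unsh w (fun v u => F v u l)) = unsh w (fun v u => psum ys (F v u)) := by
  induction w with
  | nil => intro F; rfl
  | cons b w ih =>
    intro F
    simp only [unsh]
    rw [psum_add, ih (fun v u => F (b :: v) u), ih (fun v u => F v (b :: u))]

/-- the symmetrized product: a monomial symmetric function -/
def permS : List ℚ → Multiset ℕ → ℚ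
  | [], μ => if μ = 0 then 1 else 0
  | y :: ys, μ => (μ.map (fun b => y ^ (2 * b) * permS ys (μ.erase b))).sum

/-- sum over the letters -/
def pick : List ℕ → (ℕ → List ℕ → ℚ) → ℚ
  | [], _ => 0
  | b :: w, G => G b w + pick w (fun c u => G c (b :: u))

lemma unsh_nil (w : List ℕ) : ∀ (F : List ℕ → ℚ) (y : ℚ),
    unsh w (fun v u => R v none ([] : List ℚ) y * F u) = F w := by
  induction w with
  | nil => intro F y; simp [unsh]
  | cons b w ih =>
    intro F y
    simp only [unsh, R_cons_nil, zero_mul]
    rw [ih (fun u => F (b :: u))]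
    have : unsh w (fun _ _ => (0 : ℚ)) = 0 := by
      have h := unsh_mul w (0 : ℚ) (fun _ _ => 0)
      simpa using h
    rw [this, zero_add]

lemma unsh_pick (y : ℚ) (w : List ℕ) : ∀ (F : List ℕ → ℚ),
    unsh w (fun v u => R v none [y] 0 * F u) = pick w (fun c u => y ^ (2 * c) * F u) := by
  induction w with
  | nil => intro F; simp [unsh, pick]
  | cons b w ih =>
    intro F
    simp only [unsh, pick]
    rw [ih (fun u => F (b :: u))]
    congr 1
    have h1 : ∀ v : List ℕ, R (b :: v) none [y] 0 = y ^ (2 * b) * R v none [] 0 := by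
      intro v
      rw [R_cons, D_cons]
      simp
    simp only [h1]
    have h2 : ∀ v u : List ℕ, y ^ (2 * b) * R v none ([] : List ℚ) 0 * F u =
        y ^ (2 * b) * (R v none ([] : List ℚ) 0 * F u) := fun v u => by ring
    simp only [h2]
    rw [unsh_mul, unsh_nil]

lemma pick_eq (w : List ℕ) : ∀ (G : ℕ → Multiset ℕ → ℚ),
    pick w (fun c u => G c (u : Multiset ℕ)) =
      ((w : Multiset ℕ).map (fun c => G c ((w : Multiset ℕ).erase c))).sum := by
  induction w with
  | nil => intro G; simp [pick]
  | cons b w ih =>
    intro G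
    rw [pick]
    have h1 := ih (fun c μ => G c (b ::ₘ μ))
    simp only [Multiset.cons_coe] at h1
    rw [h1, ← Multiset.cons_coe, Multiset.map_cons, Multiset.sum_cons, Multiset.erase_cons_head]
    congr 1
    congr 1
    apply Multiset.map_congr rfl
    intro c hc
    rw [Multiset.erase_cons_tail_of_mem hc]

/-- **Symmetrization.** -/
lemma psum_R (ys : List ℚ) : ∀ (w : List ℕ), psum ys (fun l => R w none l 0) = permS ys w := by
  induction ys with
  | nil =>
    intro w
    cases w with
    | nil => simp [psum, permS]
    | cons b w => simp [psum, permS]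
  | cons y ys ih =>
    intro w
    simp only [psum, sh_R]
    rw [psum_unsh ys w (fun v u l => R v none [y] 0 * R u none l 0)]
    simp only [psum_mul, ih]
    rw [unsh_pick, pick_eq w (fun c μ => y ^ (2 * c) * permS ys μ)]
    rfl

/-- **Linear independence.** -/
lemma permS_indep (s : ℕ) : ∀ (P : Finset (Multiset ℕ)) (lam : Multiset ℕ → ℚ)
    (_ : ∀ μ ∈ P, μ.card = s)
    (_ : ∀ ys : List ℚ, ys.length = s → ∑ μ ∈ P, lam μ * permS ys μ = 0), ∀ μ ∈ P, lam μ = 0 := by
  induction s with
  | zero =>
    intro P lam hP h μ hμ
    have h1 : ∀ ν ∈ P, ν = 0 := fun ν hν => Multiset.card_eq_zero.1 (hP ν hν)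
    have h2 := h [] rfl
    rw [sum_eq_single_of_mem μ hμ (fun ν hν hne => absurd ((h1 ν hν).trans (h1 μ hμ).symm) hne)] at h2
    rw [h1 μ hμ] at h2 ⊢
    simpa [permS] using h2
  | succ s ih =>
    intro P lam hP h μ hμ
    classical
    obtain ⟨c, hc⟩ : ∃ c, c ∈ μ := Multiset.card_pos_iff_exists_mem.1 (by rw [hP μ hμ]; omega)
    -- the coefficient of `y ^ (2 c)`
    have h1 : ∀ ys : List ℚ, ys.length = s →
        ∑ ν ∈ P with c ∈ ν, (lam ν * (ν.count c : ℚ)) * permS ys (ν.erase c) = 0 := by
      intro ys hys
      have h2 : (∑ ν ∈ P, (ν.map (fun b => Polynomial.C (lam ν * permS ys (ν.erase b)) *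
          Polynomial.X ^ (2 * b))).sum) = 0 := by
        apply Polynomial.funext
        intro y
        rw [Polynomial.eval_finsetSum, Polynomial.eval_zero]
        refine Eq.trans ?_ (h (y :: ys) (by simp [hys]))
        apply sum_congr rfl
        intro ν _
        rw [permS, ← Multiset.sum_map_mul_left]
        rw [← Polynomial.coe_evalRingHom, map_multiset_sum, Multiset.map_map]
        congr 1
        apply Multiset.map_congr rfl
        intro b _
        simp only [Function.comp, Polynomial.coe_evalRingHom, Polynomial.eval_mul, Polynomial.eval_C,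
          Polynomial.eval_pow, Polynomial.eval_X]
        ring
      have h3 := congrArg (fun Q : Polynomial ℚ => Q.coeff (2 * c)) h2
      simp only [Polynomial.finsetSum_coeff, Polynomial.coeff_zero] at h3
      refine Eq.trans ?_ h3
      rw [sum_filter]
      apply sum_congr rfl
      intro ν _
      have h4 : ∀ τ : Multiset ℕ, ((τ.map (fun b => Polynomial.C (lam ν * permS ys (ν.erase b)) *
          Polynomial.X ^ (2 * b))).sum).coeff (2 * c) = lam ν * (τ.count c : ℚ) *
            permS ys (ν.erase c) := by
        intro τ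
        induction τ using Multiset.induction_on with
        | empty => simp
        | cons b τ ihτ =>
          rw [Multiset.map_cons, Multiset.sum_cons, Polynomial.coeff_add, ihτ,
            Polynomial.coeff_C_mul, Polynomial.coeff_X_pow]
          by_cases hbc : b = c
          · subst hbc
            rw [if_pos rfl, Multiset.count_cons_self]
            push_cast
            ring
          · rw [if_neg (by omega), Multiset.count_cons_of_ne (Ne.symm hbc)]
            ring
      rw [h4 ν]
      split_ifs with hcν
      · rfl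
      · rw [Multiset.count_eq_zero_of_notMem hcν]
        simp
    have h5 := ih ((P.filter (fun ν => c ∈ ν)).image (fun ν => ν.erase c))
      (fun ν => lam (c ::ₘ ν) * ((c ::ₘ ν).count c : ℚ)) (by
        intro ν hν
        rw [mem_image] at hν
        obtain ⟨τ, hτ, rfl⟩ := hν
        rw [mem_filter] at hτ
        rw [Multiset.card_erase_of_mem hτ.2, hP τ hτ.1]
        rfl) (by
        intro ys hys
        rw [sum_image]
        · refine Eq.trans ?_ (h1 ys hys)
          apply sum_congr rfl
          intro ν hν
          rw [mem_filter] at hν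
          rw [Multiset.cons_erase hν.2]
        · intro a ha b hb hab
          rw [mem_coe, mem_filter] at ha hb
          simp only at hab
          rw [← Multiset.cons_erase ha.2, hab, Multiset.cons_erase hb.2])
      (μ.erase c) (mem_image_of_mem _ (mem_filter.2 ⟨hμ, hc⟩))
    rw [Multiset.cons_erase hc] at h5
    rcases mul_eq_zero.1 h5 with h6 | h6
    · exact h6
    · exfalso
      have h7 : μ.count c = 0 := by exact_mod_cast h6
      rw [Multiset.count_eq_zero] at h7
      exact h7 hc

/-- the number of the partitions -/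
lemma part (s m : ℕ) (P : Finset (Multiset ℕ))
    (hP : ∀ μ ∈ P, μ.card = s ∧ (∀ x ∈ μ, 1 ≤ x) ∧ μ.sum = m) :
    P.card ≤ Module.finrank ℚ (Usp s m) := by
  classical
  have hmem : ∀ μ : P, pro (μ.1.toList) ∈ Usp s m := by
    intro μ
    obtain ⟨h1, h2, h3⟩ := hP μ.1 μ.2
    apply Submodule.subset_span
    refine ⟨_, by simp [h1], ?_, ?_, rfl⟩
    · rw [Multiset.sum_toList, h3]
    · intro x hx
      exact h2 x (Multiset.mem_toList.1 hx)
  have hli : LinearIndependent ℚ (fun μ : P => (⟨_, hmem μ⟩ : Usp s m)) := by
    rw [Fintype.linearIndependent_iff]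
    intro g hg i
    have hg' : ∑ μ : P, g μ • pro (μ.1.toList) = 0 := by
      have := congrArg Subtype.val hg
      simpa using this
    set lam : Multiset ℕ → ℚ := fun μ => if h : μ ∈ P then g ⟨μ, h⟩ else 0 with hlam
    have hlam' : ∀ μ : P, lam μ.1 = g μ := by
      intro μ
      rw [hlam]
      simp only [μ.2, dif_pos]
    rw [← hlam' i]
    apply permS_indep s P lam (fun μ hμ => (hP μ hμ).1) _ i.1 i.2
    intro ys hys
    have h1 : ∀ l : List ℚ, l.length = s → ∑ μ ∈ P, lam μ * R μ.toList none l 0 = 0 := by
      intro l hl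
      obtain ⟨y, hy⟩ := lst_surj l
      have h2 := congrFun hg' y
      rw [Finset.sum_apply, Pi.zero_apply] at h2
      refine Eq.trans ?_ h2
      rw [← sum_coe_sort]
      apply sum_congr rfl
      intro μ _
      rw [hlam' μ, Pi.smul_apply, pro_eq, Multiset.length_toList, (hP μ.1 μ.2).1, ← hl, hy]
      rfl
    have h3 : psum ys (fun l => ∑ w ∈ P.image Multiset.toList, lam (w : Multiset ℕ) * R w none l 0) = 0 := by
      rw [psum_congr ys _ (fun _ => 0), psum_zero]
      intro l hl
      rw [sum_image (fun a _ b _ h => by
        have := congrArg (fun l : List ℕ => (l : Multiset ℕ)) h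
        simpa using this)]
      simp only [Multiset.coe_toList]
      exact h1 l (hl.trans hys)
    rw [psum_sum ys _ (fun w => lam (w : Multiset ℕ)) (fun w l => R w none l 0)] at h3
    rw [sum_image (fun a _ b _ h => by
        have := congrArg (fun l : List ℕ => (l : Multiset ℕ)) h
        simpa using this)] at h3
    simp only [psum_R, Multiset.coe_toList] at h3
    exact h3
  have := hli.fintype_card_le_finrank
  rwa [Fintype.card_coe] at this

/-- **The explicit bound.** -/
theorem explicit (s n : ℕ) :
    ((n - 1) / 3).choose (s + 1) ≤ (s + 1).factorial * Module.finrank ℚ (Lsp (s + 2) n) := by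
  classical
  set K := (n - 1) / 3 with hK
  set Q : Finset (Multiset ℕ) := (W (s + 1) K).image (fun w : List ℕ => (w : Multiset ℕ)) with hQ
  have h1 : (W (s + 1) K).card ≤ (s + 1).factorial * Q.card := by
    apply Finset.card_le_mul_card_image
    intro μ hμ
    rw [mem_image] at hμ
    obtain ⟨w, hw, rfl⟩ := hμ
    rw [mem_W] at hw
    have h2 : (W (s + 1) K).filter (fun v : List ℕ => (v : Multiset ℕ) = (w : Multiset ℕ)) ⊆
        w.permutations.toFinset := by
      intro v hv
      rw [mem_filter] at hv
      rw [List.mem_toFinset, List.mem_permutations]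
      exact Multiset.coe_eq_coe.1 hv.2
    refine (card_le_card h2).trans ((List.toFinset_card_le _).trans ?_)
    rw [List.length_permutations, hw.1]
  have h3 : Q.card ≤ Module.finrank ℚ (Lsp (s + 2) n) := by
    refine le_trans ?_ (dims s n)
    have h4 : Q.card = ∑ m ∈ range n with 3 * m < n, (Q.filter (fun μ => μ.sum = m)).card := by
      apply Finset.card_eq_sum_card_fiberwise
      intro μ hμ
      rw [mem_coe, hQ, mem_image] at hμ
      obtain ⟨w, hw, rfl⟩ := hμ
      rw [mem_W] at hw
      rw [mem_coe, mem_filter, mem_range, Multiset.sum_coe]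
      obtain ⟨h5, h6, h7⟩ := hw
      have h8 : 1 ≤ w.sum := by
        match w, h5 with
        | b :: w, _ =>
          have := h6 b List.mem_cons_self
          rw [List.sum_cons]
          omega
      omega
    rw [h4]
    apply sum_le_sum
    intro m _
    apply part
    intro μ hμ
    rw [mem_filter, hQ, mem_image] at hμ
    obtain ⟨⟨w, hw, rfl⟩, h9⟩ := hμ
    rw [mem_W] at hw
    exact ⟨by rw [Multiset.coe_card, hw.1], fun x hx => hw.2.1 x (Multiset.mem_coe.1 hx), h9⟩
  rw [card_W] at h1
  exact h1.trans (Nat.mul_le_mul_left _ h3)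

end Pool.Agent.D0H20.BK
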