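import Pool.Agent.D0H20.BK.Chord
import Pool.Agent.D0H20.BK.Part

/-!
# The equivalence, and the exact dimension of the span of the large brackets
-/

set_option autoImplicit false

namespace Pool.Agent.D0H20.BK

open Finset

/-- the relations of the products are relations of the brackets -/
theorem conv (s n m : ℕ) (S : Finset (List ℕ)) (lam : List ℕ → ℚ)
    (hS : ∀ w ∈ S, w.length = s ∧ w.sum = m)
    (h : ∀ y : ℕ → ℚ, ∑ w ∈ S, lam w * pro w y = 0) (y : ℕ → ℚ) :
    ∑ w ∈ S, lam w * bra (w ++ [n - m]) y = 0 := by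
  set U : List (ℚ × List ℕ) := S.toList.map (fun w => (lam w, w)) with hU
  have hmem : ∀ a ∈ U, a.2 ∈ S := by
    intro a ha
    rw [hU, List.mem_map] at ha
    obtain ⟨w, hw, rfl⟩ := ha
    exact Finset.mem_toList.1 hw
  have h1 := Br_zero s (n - m) U (fun a ha => (hS _ (hmem a ha)).1) (by
    intro ys q hys
    obtain ⟨z, hz⟩ := lst_surj (ys.map (fun t => 1 * t + -q))
    rw [List.length_map, hys] at hz
    rw [hU, ev_toList]
    refine Eq.trans ?_ (h z)
    apply sum_congr rfl
    intro w hw
    have h2 := R_aff 1 (-q) w none ys q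
    rw [one_pow, one_mul, one_mul, Option.map_none, add_neg_cancel] at h2
    rw [pro_eq, (hS w hw).1, hz, h2]) (lst (s + 1) y) 0 (by simp)
  rw [hU, ev_toList] at h1
  refine Eq.trans ?_ h1
  apply sum_congr rfl
  intro w hw
  rw [bra_eq, (hS w hw).1]

/-- **The equivalence.** -/
theorem rel_iff (s n : ℕ) (S : Finset (List ℕ)) (lam : List ℕ → ℚ)
    (hS : ∀ w ∈ S, w.length = s + 1 ∧ (∀ x ∈ w, 1 ≤ x) ∧ 3 * w.sum < n) :
    (∑ w ∈ S, lam w • bra (w ++ [n - w.sum]) = 0) ↔
      ∀ m, ∑ w ∈ S with w.sum = m, lam w • pro w = 0 := by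
  constructor
  · intro h m
    funext y
    rw [Finset.sum_apply, Pi.zero_apply]
    exact rel s n S lam hS (fun y => by
      have := congrFun h y
      rw [Finset.sum_apply, Pi.zero_apply] at this
      exact this) m y
  · intro h
    funext y
    rw [Finset.sum_apply, Pi.zero_apply]
    rw [← Finset.sum_fiberwise_of_maps_to (s := S) (t := S.image List.sum) (g := List.sum)
      (fun w hw => mem_image_of_mem _ hw)]
    apply sum_eq_zero
    intro m _
    have h1 := conv (s + 1) n m (S.filter (fun w => w.sum = m)) lam (fun w hw => by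
      rw [mem_filter] at hw
      exact ⟨(hS w hw.1).1, hw.2⟩) (fun y => by
      have := congrFun (h m) y
      rw [Finset.sum_apply, Pi.zero_apply] at this
      exact this) y
    refine Eq.trans ?_ h1
    apply sum_congr rfl
    intro w hw
    rw [mem_filter] at hw
    rw [← hw.2]
    rfl

/-- the span of the brackets with a large last letter -/
def Nsp (r n : ℕ) : Submodule ℚ ((ℕ → ℚ) → ℚ) :=
  Submodule.span ℚ {g | ∃ (w : List ℕ) (b : ℕ), w.length + 1 = r ∧ w.sum + b = n ∧ (∀ x ∈ w, 1 ≤ x) ∧
    2 * w.sum < b ∧ g = bra (w ++ [b])}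

lemma N_le (r n : ℕ) : Nsp r n ≤ Lsp r n := by
  apply Submodule.span_le.2
  rintro g ⟨w, b, h1, h2, h3, h4, rfl⟩
  apply Submodule.subset_span
  refine ⟨_, by simp [h1], by simp [h2], ?_, rfl⟩
  intro x hx
  rcases List.mem_append.1 hx with hx | hx
  · exact h3 x hx
  · rw [List.mem_singleton] at hx
    omega

/-- a basis inside a finite family, with the expansions -/
lemma exists_basis2 {ι V : Type} [AddCommGroup V] [Module ℚ V] [DecidableEq ι] (T : Finset ι)
    (v : ι → V) : ∃ B ⊆ T, B.card = Module.finrank ℚ (Submodule.span ℚ (v '' (T : Set ι))) ∧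
      (∀ lam : ι → ℚ, ∑ i ∈ B, lam i • v i = 0 → ∀ i ∈ B, lam i = 0) ∧
      ∀ i ∈ T, ∃ c : ι → ℚ, v i = ∑ j ∈ B, c j • v j := by
  obtain ⟨κ, a, ha, hspan, hli⟩ := exists_linearIndependent' ℚ (fun i : T => v i)
  have : Finite κ := Finite.of_injective a ha
  have := Fintype.ofFinite κ
  have hinj : Function.Injective (fun k : κ => (a k : ι)) := Subtype.val_injective.comp ha
  refine ⟨univ.image (fun k : κ => (a k : ι)), ?_, ?_, ?_, ?_⟩
  · intro i hi
    rw [mem_image] at hi
    obtain ⟨k, _, rfl⟩ := hi
    exact (a k).2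
  · rw [card_image_of_injective _ hinj, Set.image_eq_range, card_univ]
    have h1 := finrank_span_eq_card hli
    rw [hspan] at h1
    exact h1.symm
  · intro lam h i hi
    rw [sum_image (fun x _ y _ h => hinj h)] at h
    rw [mem_image] at hi
    obtain ⟨k, _, rfl⟩ := hi
    exact Fintype.linearIndependent_iff.1 hli (fun k => lam (a k)) h k
  · intro i hi
    have h1 : v i ∈ Submodule.span ℚ (Set.range ((fun i : T => v i) ∘ a)) := by
      rw [hspan]
      exact Submodule.subset_span ⟨⟨i, hi⟩, rfl⟩
    rw [Submodule.mem_span_range_iff_exists_fun] at h1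
    obtain ⟨c, hc⟩ := h1
    classical
    refine ⟨fun j => ∑ k : κ, if (a k : ι) = j then c k else 0, ?_⟩
    rw [sum_image (fun x _ y _ h => hinj h), ← hc]
    apply sum_congr rfl
    intro k _
    have h2 : (∑ k' : κ, if (a k' : ι) = (a k : ι) then c k' else 0) = c k := by
      rw [sum_eq_single k]
      · rw [if_pos rfl]
      · intro k' _ hk'
        exact if_neg (fun h => hk' (hinj h))
      · intro h; exact absurd (mem_univ k) h
    show c k • v (a k) = (∑ k' : κ, if (a k' : ι) = (a k : ι) then c k' else 0) • v (a k)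
    rw [h2]

/-- **The exact dimension.** -/
theorem dims_eq (s n : ℕ) : Module.finrank ℚ (Nsp (s + 2) n) =
    ∑ m ∈ range n with 3 * m < n, Module.finrank ℚ (Usp (s + 1) m) := by
  have hset : ∀ m, pro '' (((W (s + 1) m).filter (fun w => w.sum = m) : Finset (List ℕ)) : Set (List ℕ)) =
      {g | ∃ b : List ℕ, b.length = s + 1 ∧ b.sum = m ∧ (∀ x ∈ b, 1 ≤ x) ∧ g = pro b} := by
    intro m
    ext g
    constructor
    · rintro ⟨w, hw, rfl⟩
      rw [mem_coe, mem_filter, mem_W] at hw
      exact ⟨w, hw.1.1, hw.2, hw.1.2.1, rfl⟩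
    · rintro ⟨w, h1, h2, h3, rfl⟩
      refine ⟨w, ?_, rfl⟩
      rw [mem_coe, mem_filter, mem_W]
      exact ⟨⟨h1, h3, h2.le⟩, h2⟩
  have hex : ∀ m, ∃ B : Finset (List ℕ),
      (∀ w ∈ B, w.length = s + 1 ∧ (∀ x ∈ w, 1 ≤ x) ∧ w.sum = m) ∧
      B.card = Module.finrank ℚ (Usp (s + 1) m) ∧
      (∀ lam : List ℕ → ℚ, ∑ w ∈ B, lam w • pro w = 0 → ∀ w ∈ B, lam w = 0) ∧
      ∀ w : List ℕ, w.length = s + 1 → (∀ x ∈ w, 1 ≤ x) → w.sum = m →
        ∃ c : List ℕ → ℚ, pro w = ∑ v ∈ B, c v • pro v := by
    intro m
    obtain ⟨B, hB1, hB2, hB3, hB4⟩ := exists_basis2 ((W (s + 1) m).filter (fun w => w.sum = m)) pro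
    refine ⟨B, fun w hw => ?_, ?_, hB3, ?_⟩
    · have := hB1 hw
      rw [mem_filter, mem_W] at this
      exact ⟨this.1.1, this.1.2.1, this.2⟩
    · rw [hB2, hset]
      rfl
    · intro w h1 h2 h3
      apply hB4
      rw [mem_filter, mem_W]
      exact ⟨⟨h1, h2, h3.le⟩, h3⟩
  choose B hB1 hB2 hB3 hB4 using hex
  set I : Finset (List ℕ) := ((range n).filter (fun m => 3 * m < n)).biUnion B with hI
  have hcard : I.card = ∑ m ∈ range n with 3 * m < n, Module.finrank ℚ (Usp (s + 1) m) := by
    rw [hI, card_biUnion]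
    · exact sum_congr rfl (fun m _ => hB2 m)
    · intro a _ b _ hab
      refine Finset.disjoint_left.2 ?_
      intro w hw hw'
      exact hab ((hB1 a w hw).2.2.symm.trans (hB1 b w hw').2.2)
  have hImem : ∀ w ∈ I, w ∈ B w.sum ∧ 3 * w.sum < n := by
    intro w hw
    rw [hI, mem_biUnion] at hw
    obtain ⟨m, hm, hw⟩ := hw
    rw [mem_filter] at hm
    rw [(hB1 m w hw).2.2]
    exact ⟨hw, hm.2⟩
  have hImem' : ∀ m w, 3 * m < n → w ∈ B m → w ∈ I := by
    intro m w hm hw
    rw [hI, mem_biUnion]
    refine ⟨m, ?_, hw⟩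
    rw [mem_filter, mem_range]
    exact ⟨by omega, hm⟩
  rw [← hcard, ← Fintype.card_coe]
  have hli : LinearIndependent ℚ (fun w : I => bra (w.1 ++ [n - w.1.sum])) := by
    rw [Fintype.linearIndependent_iff]
    intro g hg' i
    classical
    set lam : List ℕ → ℚ := fun w => if h : w ∈ I then g ⟨w, h⟩ else 0 with hlam
    have hlam' : ∀ w : I, lam w.1 = g w := by
      intro w
      rw [hlam]
      simp only [w.2, dif_pos]
    have h1 : ∀ y : ℕ → ℚ, ∑ w ∈ I, lam w * bra (w ++ [n - w.sum]) y = 0 := by
      intro y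
      have h2 := congrFun hg' y
      rw [Finset.sum_apply, Pi.zero_apply] at h2
      rw [← h2, ← sum_coe_sort]
      apply sum_congr rfl
      intro w _
      rw [hlam' w]
      rfl
    have h3 := rel s n I lam (fun w hw => ⟨(hB1 _ _ (hImem w hw).1).1, (hB1 _ _ (hImem w hw).1).2.1,
      (hImem w hw).2⟩) h1
    rw [← hlam' i]
    have h5 : I.filter (fun w => w.sum = i.1.sum) = B i.1.sum := by
      apply subset_antisymm
      · intro w hw
        rw [mem_filter] at hw
        have := (hImem w hw.1).1
        rwa [hw.2] at this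
      · intro w hw
        rw [mem_filter]
        exact ⟨hImem' _ w (hImem i.1 i.2).2 hw, (hB1 _ _ hw).2.2⟩
    apply hB3 i.1.sum lam _ i.1 (hImem i.1 i.2).1
    rw [← h5]
    funext y
    rw [Finset.sum_apply, Pi.zero_apply]
    exact h3 i.1.sum y
  have hspan : Nsp (s + 2) n = Submodule.span ℚ (Set.range (fun w : I => bra (w.1 ++ [n - w.1.sum]))) := by
    apply le_antisymm
    · apply Submodule.span_le.2
      rintro g ⟨w, b, h1, h2, h3, h4, rfl⟩
      obtain ⟨c, hc⟩ := hB4 w.sum w (by omega) h3 rfl
      have hb : b = n - w.sum := by omega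
      -- the same expansion for the brackets
      have hexp : bra (w ++ [n - w.sum]) = ∑ v ∈ B w.sum, c v • bra (v ++ [n - w.sum]) := by
        by_cases hw : w ∈ B w.sum
        · have h6 : ∀ v ∈ B w.sum, (c v - if v = w then 1 else 0) = 0 := by
            apply hB3 w.sum (fun v => c v - if v = w then 1 else 0)
            simp only [sub_smul, sum_sub_distrib, ite_smul, one_smul, zero_smul]
            rw [← hc, sum_ite_eq' (B w.sum) w, if_pos hw, sub_self]
          have h7 : ∑ v ∈ B w.sum, c v • bra (v ++ [n - w.sum]) =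
              ∑ v ∈ B w.sum, (if v = w then (1 : ℚ) else 0) • bra (v ++ [n - w.sum]) := by
            apply sum_congr rfl
            intro v hv
            rw [sub_eq_zero.1 (h6 v hv)]
          rw [h7]
          simp only [ite_smul, one_smul, zero_smul]
          rw [sum_ite_eq' (B w.sum) w, if_pos hw]
        · funext y
          have h8 := conv (s + 1) n w.sum (insert w (B w.sum))
            (fun v => if v = w then -1 else c v) (by
              intro v hv
              rcases mem_insert.1 hv with rfl | hv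
              · exact ⟨by omega, rfl⟩
              · exact ⟨(hB1 _ _ hv).1, (hB1 _ _ hv).2.2⟩) (by
              intro y
              rw [sum_insert hw, if_pos rfl]
              have h9 : ∑ v ∈ B w.sum, (if v = w then -1 else c v) * pro v y =
                  ∑ v ∈ B w.sum, c v * pro v y := by
                apply sum_congr rfl
                intro v hv
                rw [if_neg (fun h : v = w => by subst h; exact hw hv)]
              have h10 := congrFun hc y
              rw [Finset.sum_apply] at h10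
              rw [h9, h10]
              simp only [Pi.smul_apply, smul_eq_mul]
              ring) y
          rw [sum_insert hw, if_pos rfl] at h8
          have h9 : ∑ v ∈ B w.sum, (if v = w then -1 else c v) * bra (v ++ [n - w.sum]) y =
              ∑ v ∈ B w.sum, c v * bra (v ++ [n - w.sum]) y := by
            apply sum_congr rfl
            intro v hv
            rw [if_neg (fun h : v = w => by subst h; exact hw hv)]
          rw [h9] at h8
          rw [Finset.sum_apply]
          simp only [Pi.smul_apply, smul_eq_mul]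
          linarith
      rw [hb, SetLike.mem_coe, hexp]
      apply Submodule.sum_mem
      intro v hv
      apply Submodule.smul_mem
      apply Submodule.subset_span
      refine ⟨⟨v, hImem' w.sum v (by omega) hv⟩, ?_⟩
      simp only [(hB1 _ _ hv).2.2]
    · apply Submodule.span_le.2
      rintro _ ⟨w, rfl⟩
      obtain ⟨h1, h2⟩ := hImem w.1 w.2
      obtain ⟨h3, h4, -⟩ := hB1 _ _ h1
      apply Submodule.subset_span
      exact ⟨w.1, n - w.1.sum, by omega, by omega, h4, by omega, rfl⟩
  rw [hspan]
  exact finrank_span_eq_card hli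

end Pool.Agent.D0H20.BK
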