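import Pool.Agent.D0H20.BK.ThmC

/-!
# Isolation of the factor of one linear form
-/

set_option autoImplicit false

namespace Pool.Agent.D0H20.BK

section general

variable {A : Type*} [CommRing A]

/-- the iterated bracket with the last letter `b` -/
def Br (b : ℕ) : List ℕ → List A → A → A
  | [], [], _ => 0
  | [], [x], q => (x - q) ^ (2 * b)
  | [], _ :: _ :: _, _ => 0
  | _ :: _, [], _ => 0
  | a :: u, y :: ys, q => D a none (y :: ys) q (fun l => Br b u l q) -
      (y - q) ^ (2 * a) * Br b u ys q -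
      (ys.getLastD y - q) ^ (2 * a) * Br b u ((y :: ys).dropLast) (ys.getLastD y) -
      (-1) ^ ys.length * (y - q) ^ (2 * a) * Br b u ys.reverse y

lemma Br_one (b : ℕ) (x q : A) : Br b [] [x] q = (x - q) ^ (2 * b) := rfl

lemma Br_cons (b a : ℕ) (u : List ℕ) (y : A) (ys : List A) (q : A) :
    Br b (a :: u) (y :: ys) q = D a none (y :: ys) q (fun l => Br b u l q) -
      (y - q) ^ (2 * a) * Br b u ys q -
      (ys.getLastD y - q) ^ (2 * a) * Br b u ((y :: ys).dropLast) (ys.getLastD y) -
      (-1) ^ ys.length * (y - q) ^ (2 * a) * Br b u ys.reverse y := rfl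

variable (F : ℕ → Set A) (G : AddSubgroup A) (N M : ℕ) (P : Set A)

/-- good sets of points -/
def Clique (S : Set A) : Prop := S ⊆ P ∧ ∀ x ∈ S, ∀ z ∈ S, ∀ X ∈ F M, X * (x - z) ^ N ∈ G

variable (hm : ∀ d e : ℕ, ∀ x ∈ F d, ∀ y ∈ F e, x * y ∈ F (d + e))
  (hP : ∀ x ∈ P, ∀ z ∈ P, x - z ∈ F 1)

include hm hP in
lemma mul_pow_mem (d k : ℕ) (X : A) (hX : X ∈ F d) (x z : A) (hx : x ∈ P) (hz : z ∈ P) :
    X * (x - z) ^ k ∈ F (d + k) := by
  induction k with
  | zero => simpa using hX
  | succ k ih =>
    rw [pow_succ, ← mul_assoc, ← add_assoc]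
    exact hm _ _ _ ih _ (hP x hx z hz)

omit [CommRing A] in
lemma headD_mem (S : Set A) (ys : List A) (q : A) (h : ∀ x ∈ ys, x ∈ S) (hq : q ∈ S) :
    ys.headD q ∈ S := by
  cases ys with
  | nil => exact hq
  | cons y ys => exact h y List.mem_cons_self

include hm hP in
lemma iso_D (a : ℕ) (q : A) (hq : q ∈ P) (S : Set A) (hS : S ⊆ P) (d : ℕ) (ys : List A) :
    ∀ (p : Option A) (_ : ∀ x, p = some x → x ∈ P) (_ : ∀ x ∈ ys, x ∈ S) (H : List A → A)
    (_ : ∀ l : List A, (∀ x ∈ l, x ∈ S) → l.length + 1 = ys.length →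
      ∀ X ∈ F (d + 2 * a), X * H l ∈ G), ∀ X ∈ F d, X * D a p ys q H ∈ G := by
  induction ys with
  | nil => intro p _ _ H _ X _; simp [G.zero_mem]
  | cons y ys ih =>
    intro p hp hys H hH X hX
    rw [D_cons, mul_add]
    have hyP : y ∈ P := hS (hys y List.mem_cons_self)
    have hys' : ∀ x ∈ ys, x ∈ S := fun x hx => hys x (List.mem_cons_of_mem _ hx)
    apply G.add_mem
    · have e : X * (((y - ys.headD q) ^ (2 * a) - ko a p y) * H ys) =
        X * (y - ys.headD q) ^ (2 * a) * H ys - X * ko a p y * H ys := by ring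
      rw [e]
      apply G.sub_mem
      · exact hH ys hys' rfl _ (mul_pow_mem F P hm hP d _ X hX _ _ hyP
          (headD_mem P ys q (fun x hx => hS (hys' x hx)) hq))
      · cases p with
        | none => simp [G.zero_mem]
        | some x =>
          rw [ko_some]
          exact hH ys hys' rfl _ (mul_pow_mem F P hm hP d _ X hX _ _ (hp x rfl) hyP)
    · apply ih (some y) (fun x hx => by
        obtain rfl := Option.some.inj hx
        exact hyP) hys' _ (fun l hl hl' => ?_) X hX
      apply hH (y :: l) _ (by simp [hl'])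
      intro x hx
      rcases List.mem_cons.1 hx with rfl | hx
      · exact hys _ List.mem_cons_self
      · exact hl x hx

omit [CommRing A] in
lemma getLastD_mem' (S : Set A) (ys : List A) : ∀ (y : A) (_ : y ∈ S) (_ : ∀ x ∈ ys, x ∈ S),
    ys.getLastD y ∈ S := by
  induction ys with
  | nil => intro y hy _; exact hy
  | cons z zs ih =>
    intro y _ h
    rw [List.getLastD_cons]
    exact ih z (h z List.mem_cons_self) (fun x hx => h x (List.mem_cons_of_mem _ hx))

include hm hP in
/-- all differences are good -/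
lemma iso_1 (b e : ℕ) (hb : 2 * b = N + 2 * e) (S : Set A) (hS : Clique F G N M P S) (w : List ℕ) :
    ∀ (d : ℕ) (_ : d + 2 * w.sum + 2 * e = M) (X : A) (_ : X ∈ F d) (ys : List A) (q : A)
    (_ : ys.length = w.length + 1) (_ : ∀ x ∈ ys, x ∈ S) (_ : q ∈ S), X * Br b w ys q ∈ G := by
  induction w with
  | nil =>
    intro d hd X hX ys q hl hys hq
    match ys, hl with
    | [x], _ =>
      rw [Br_one, hb, add_comm N, pow_add, ← mul_assoc]
      have hx : x ∈ S := hys x (by simp)
      apply hS.2 x hx q hq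
      have h1 := mul_pow_mem F P hm hP d (2 * e) X hX x q (hS.1 hx) (hS.1 hq)
      have h2 : d + 2 * e = M := by simpa using hd
      rwa [h2] at h1
  | cons a u ih =>
    intro d hd X hX ys q hl hys hq
    match ys, hl with
    | y :: ys, hl =>
      have hl' : ys.length = u.length + 1 := by simpa using hl
      have hd' : d + 2 * a + 2 * u.sum + 2 * e = M := by
        rw [List.sum_cons] at hd
        omega
      have hy : y ∈ S := hys y List.mem_cons_self
      have hys' : ∀ x ∈ ys, x ∈ S := fun x hx => hys x (List.mem_cons_of_mem _ hx)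
      have hlast : ys.getLastD y ∈ S := getLastD_mem' S ys y hy hys'
      rw [Br_cons, mul_sub, mul_sub, mul_sub]
      have hpw : ∀ x ∈ S, ∀ z ∈ S, X * (x - z) ^ (2 * a) ∈ F (d + 2 * a) := fun x hx z hz =>
        mul_pow_mem F P hm hP d _ X hX _ _ (hS.1 hx) (hS.1 hz)
      refine G.sub_mem (G.sub_mem (G.sub_mem ?_ ?_) ?_) ?_
      · apply iso_D F G P hm hP a q (hS.1 hq) S hS.1 d (y :: ys) none (by simp) hys _ _ X hX
        intro l hl1 hl2 X' hX'
        exact ih _ hd' X' hX' l q (by simp at hl2; omega) hl1 hq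
      · rw [← mul_assoc]
        exact ih _ hd' _ (hpw y hy q hq) ys q hl' hys' hq
      · rw [← mul_assoc]
        apply ih _ hd' _ (hpw _ hlast q hq) _ _ (by simp [hl']) _ hlast
        intro x hx
        exact hys x (List.mem_of_mem_dropLast hx)
      · have e1 : X * ((-1) ^ ys.length * (y - q) ^ (2 * a) * Br b u ys.reverse y) =
          (-1) ^ ys.length * (X * (y - q) ^ (2 * a) * Br b u ys.reverse y) := by ring
        rw [e1]
        have h3 : X * (y - q) ^ (2 * a) * Br b u ys.reverse y ∈ G :=
          ih _ hd' _ (hpw y hy q hq) _ _ (by simp [hl']) (by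
            intro x hx
            exact hys' x (List.mem_reverse.1 hx)) hy
        rcases neg_one_pow_eq_or A ys.length with h4 | h4
        · rw [h4, one_mul]; exact h3
        · rw [h4, neg_one_mul]; exact G.neg_mem h3

include hm hP in
/-- all differences are good but one -/
lemma iso_2 (b e : ℕ) (hb : 2 * b = N + 2 * e) (S T : Set A) (hS : Clique F G N M P S)
    (hT : Clique F G N M P T) (y0 q : A) (hy0 : y0 ∈ S) (hq : q ∈ T) (w : List ℕ) :
    ∀ (d : ℕ) (_ : d + 2 * w.sum + 2 * e = M) (X : A) (_ : X ∈ F d) (ys : List A)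
    (_ : ys.length = w.length) (_ : ∀ x ∈ ys, x ∈ S ∩ T),
    X * (Br b w (y0 :: ys) q - (y0 - q) ^ (2 * b) * R w (some y0) ys q) ∈ G := by
  induction w with
  | nil =>
    intro d hd X hX ys hl hys
    have : ys = [] := List.length_eq_zero_iff.1 (by simpa using hl)
    subst this
    rw [Br_one, R_nil_nil]
    have : X * ((y0 - q) ^ (2 * b) - (y0 - q) ^ (2 * b) * 1) = 0 := by ring
    rw [this]
    exact G.zero_mem
  | cons a u ih =>
    intro d hd X hX ys hl hys
    have hl' : ys.length = u.length + 1 := by simpa using hl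
    have hd' : d + 2 * a + 2 * u.sum + 2 * e = M := by
      rw [List.sum_cons] at hd
      omega
    have hysS : ∀ x ∈ ys, x ∈ S := fun x hx => (hys x hx).1
    have hysT : ∀ x ∈ ys, x ∈ T := fun x hx => (hys x hx).2
    have hne : ys ≠ [] := by
      rintro rfl
      simp at hl'
    have hlastT : ys.getLastD y0 ∈ S ∩ T := by
      match ys, hne with
      | z :: zs, _ =>
        rw [List.getLastD_cons]
        exact getLastD_mem' (S ∩ T) zs z (hys z List.mem_cons_self)
          (fun x hx => hys x (List.mem_cons_of_mem _ hx))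
    have hpw : ∀ x ∈ P, ∀ z ∈ P, X * (x - z) ^ (2 * a) ∈ F (d + 2 * a) := fun x hx z hz =>
      mul_pow_mem F P hm hP d _ X hX _ _ hx hz
    have hD : D a none (y0 :: ys) q (fun l => Br b u l q) =
        (y0 - ys.headD q) ^ (2 * a) * Br b u ys q +
          D a (some y0) ys q (fun l => Br b u (y0 :: l) q) := by
      rw [D_cons, ko_none, sub_zero]
    have hR : (y0 - q) ^ (2 * b) * R (a :: u) (some y0) ys q =
        D a (some y0) ys q (fun l => (y0 - q) ^ (2 * b) * R u (some y0) l q) := by
      rw [R_cons, D_mul]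
    rw [Br_cons, hD, hR]
    have hsplit : X * ((y0 - ys.headD q) ^ (2 * a) * Br b u ys q +
          D a (some y0) ys q (fun l => Br b u (y0 :: l) q) -
          (y0 - q) ^ (2 * a) * Br b u ys q -
          (ys.getLastD y0 - q) ^ (2 * a) * Br b u ((y0 :: ys).dropLast) (ys.getLastD y0) -
          (-1) ^ ys.length * (y0 - q) ^ (2 * a) * Br b u ys.reverse y0 -
          D a (some y0) ys q (fun l => (y0 - q) ^ (2 * b) * R u (some y0) l q)) =
        X * (y0 - ys.headD q) ^ (2 * a) * Br b u ys q +
        X * D a (some y0) ys q (fun l => Br b u (y0 :: l) q - (y0 - q) ^ (2 * b) * R u (some y0) l q)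
        - X * (y0 - q) ^ (2 * a) * Br b u ys q -
        X * (ys.getLastD y0 - q) ^ (2 * a) * Br b u ((y0 :: ys).dropLast) (ys.getLastD y0) -
        (-1) ^ ys.length * (X * (y0 - q) ^ (2 * a) * Br b u ys.reverse y0) := by
      rw [D_sub]
      ring
    rw [hsplit]
    have hqP : q ∈ P := hT.1 hq
    have hy0P : y0 ∈ P := hS.1 hy0
    refine G.sub_mem (G.sub_mem (G.sub_mem (G.add_mem ?_ ?_) ?_) ?_) ?_
    · exact iso_1 F G N M P hm hP b e hb T hT u _ hd' _
        (hpw y0 hy0P _ (headD_mem P ys q (fun x hx => hS.1 (hysS x hx)) hqP)) ys q hl' hysT hq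
    · apply iso_D F G P hm hP a q hqP (S ∩ T) (fun x hx => hS.1 hx.1) d ys (some y0)
        (fun x hx => by
          obtain rfl := Option.some.inj hx
          exact hy0P) hys _ _ X hX
      intro l hl1 hl2 X' hX'
      exact ih _ hd' X' hX' l (by omega) hl1
    · exact iso_1 F G N M P hm hP b e hb T hT u _ hd' _ (hpw y0 hy0P q hqP) ys q hl' hysT hq
    · apply iso_1 F G N M P hm hP b e hb S hS u _ hd' _ (hpw _ (hS.1 hlastT.1) q hqP) _ _
        (by simp [hl']) _ hlastT.1
      intro x hx
      rcases List.mem_cons.1 (List.mem_of_mem_dropLast hx) with rfl | hx'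
      · exact hy0
      · exact hysS x hx'
    · have h3 : X * (y0 - q) ^ (2 * a) * Br b u ys.reverse y0 ∈ G :=
        iso_1 F G N M P hm hP b e hb S hS u _ hd' _ (hpw y0 hy0P q hqP) _ _ (by simp [hl']) (by
          intro x hx
          exact hysS x (List.mem_reverse.1 hx)) hy0
      rcases neg_one_pow_eq_or A ys.length with h4 | h4
      · rw [h4, one_mul]; exact h3
      · rw [h4, neg_one_mul]; exact G.neg_mem h3

end general

end Pool.Agent.D0H20.BK
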