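import Pool.Agent.D0H20.BK.Iso

/-!
# Isolation: the three point degeneration
-/

set_option autoImplicit false

namespace Pool.Agent.D0H20.BK

open Polynomial

/-- total degree at most `d` -/
def FF (d : ℕ) : AddSubgroup ℚ[X][X] where
  carrier := {T | ∀ β i : ℕ, d < β + i → (T.coeff β).coeff i = 0}
  zero_mem' := by intro β i _; simp
  add_mem' := by
    intro S T hS hT β i h
    rw [coeff_add, coeff_add, hS β i h, hT β i h, add_zero]
  neg_mem' := by
    intro T hT β i h
    rw [coeff_neg, coeff_neg, hT β i h, neg_zero]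

/-- the coefficients between `M` and `N - β` vanish -/
def GG (N M : ℕ) : AddSubgroup ℚ[X][X] where
  carrier := {T | ∀ β i : ℕ, M < i → β + i < N → (T.coeff β).coeff i = 0}
  zero_mem' := by intro β i _ _; simp
  add_mem' := by
    intro S T hS hT β i h h'
    rw [coeff_add, coeff_add, hS β i h h', hT β i h h', add_zero]
  neg_mem' := by
    intro T hT β i h h'
    rw [coeff_neg, coeff_neg, hT β i h h', neg_zero]

lemma mem_FF (d : ℕ) (T : ℚ[X][X]) : T ∈ FF d ↔ ∀ β i : ℕ, d < β + i → (T.coeff β).coeff i = 0 :=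
  Iff.rfl

lemma mem_GG (N M : ℕ) (T : ℚ[X][X]) :
    T ∈ GG N M ↔ ∀ β i : ℕ, M < i → β + i < N → (T.coeff β).coeff i = 0 := Iff.rfl

lemma coeff2_mul (S T : ℚ[X][X]) (β i : ℕ)
    (h : ∀ a b c d : ℕ, a + b = β → c + d = i → (S.coeff a).coeff c = 0 ∨ (T.coeff b).coeff d = 0) :
    ((S * T).coeff β).coeff i = 0 := by
  rw [coeff_mul, finsetSum_coeff]
  apply Finset.sum_eq_zero
  intro x hx
  rw [Finset.HasAntidiagonal.mem_antidiagonal] at hx
  rw [coeff_mul]
  apply Finset.sum_eq_zero
  intro y hy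
  rw [Finset.HasAntidiagonal.mem_antidiagonal] at hy
  rcases h x.1 x.2 y.1 y.2 hx hy with h1 | h1
  · rw [h1, zero_mul]
  · rw [h1, mul_zero]

lemma FF_mul (d e : ℕ) : ∀ x ∈ (FF d : Set ℚ[X][X]), ∀ y ∈ (FF e : Set ℚ[X][X]),
    x * y ∈ (FF (d + e) : Set ℚ[X][X]) := by
  intro x hx y hy β i h
  apply coeff2_mul
  intro a b c f hab hcf
  by_cases h1 : d < a + c
  · exact Or.inl (hx _ _ h1)
  · exact Or.inr (hy _ _ (by omega))

/-- type 1: multiplication by a power of `a + c ε` does not change the degree in `z` -/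
lemma type1 (M : ℕ) (a c : ℚ) (k : ℕ) : ∀ (T : ℚ[X][X]) (_ : ∀ β i : ℕ, M < i → (T.coeff β).coeff i = 0),
    ∀ β i : ℕ, M < i → ((T * (C (C a) + C (C c) * X) ^ k).coeff β).coeff i = 0 := by
  induction k with
  | zero => intro T hT; simpa using hT
  | succ k ih =>
    intro T hT
    rw [pow_succ', ← mul_assoc]
    apply ih
    intro β i hi
    rw [mul_add, ← mul_assoc, coeff_add, coeff_add, coeff_mul_C, coeff_mul_C, hT _ _ hi, zero_mul,
      zero_add]
    cases β with
    | zero => rw [coeff_mul_X_zero, coeff_zero]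
    | succ β => rw [coeff_mul_X, coeff_mul_C, coeff_mul_C, hT _ _ hi, zero_mul]

/-- type 2: multiplication by a power of an element of order one -/
lemma type2 (u : ℚ[X][X]) (hu : (u.coeff 0).coeff 0 = 0) (k : ℕ) (T : ℚ[X][X]) :
    ∀ β i : ℕ, β + i < k → ((T * u ^ k).coeff β).coeff i = 0 := by
  induction k with
  | zero => intro β i h; omega
  | succ k ih =>
    intro β i h
    rw [pow_succ, ← mul_assoc]
    apply coeff2_mul
    intro a b c d hab hcd
    by_cases h1 : a + c < k
    · exact Or.inl (ih _ _ h1)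
    · right
      have hb : b = 0 := by omega
      have hd : d = 0 := by omega
      rw [hb, hd]
      exact hu

/-- the big point -/
noncomputable def Y0 : ℚ[X][X] := 1 - C X
/-- the small points -/
noncomputable def Yc (c : ℚ) : ℚ[X][X] := C (C c) * X - C X

lemma coeff_Yc (c : ℚ) (β i : ℕ) : ((Yc c).coeff β).coeff i =
    (if β = 1 ∧ i = 0 then c else 0) - if β = 0 ∧ i = 1 then 1 else 0 := by
  unfold Yc
  rw [coeff_sub, coeff_sub]
  congr 1
  · match β with
    | 0 => simp
    | 1 => rw [coeff_C_mul, coeff_X_one, mul_one, coeff_C]; simp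
    | β + 2 => rw [coeff_C_mul, coeff_X_of_ne_one (by omega), mul_zero]; simp
  · rw [coeff_C]
    by_cases h : β = 0
    · subst h
      simp [coeff_X, eq_comm]
    · simp [h]

lemma coeff_Y0 (β i : ℕ) : (Y0.coeff β).coeff i =
    (if β = 0 ∧ i = 0 then 1 else 0) - if β = 0 ∧ i = 1 then 1 else 0 := by
  unfold Y0
  rw [coeff_sub, coeff_sub]
  congr 1
  · rw [coeff_one]
    by_cases h : β = 0
    · subst h
      simp [coeff_one]
    · simp [h]
  · rw [coeff_C]
    by_cases h : β = 0
    · subst h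
      simp [coeff_X, eq_comm]
    · simp [h]

/-- the two good sets -/
def SS : Set ℚ[X][X] := insert Y0 (Set.range Yc)
def TT : Set ℚ[X][X] := insert 0 (Set.range Yc)

lemma Yc_mem (c : ℚ) : Yc c ∈ FF 1 := by
  intro β i h
  rw [coeff_Yc, if_neg (by omega), if_neg (by omega), sub_zero]

lemma Y0_mem : Y0 ∈ FF 1 := by
  intro β i h
  rw [coeff_Y0, if_neg (by omega), if_neg (by omega), sub_zero]

lemma cl_of (N M : ℕ) (S : Set ℚ[X][X]) (hS : ∀ x ∈ S, x ∈ FF 1)
    (h : ∀ x ∈ S, ∀ z ∈ S, ((x - z).coeff 0).coeff 0 = 0 ∨ ∃ a c : ℚ, x - z = C (C a) + C (C c) * X) :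
    Clique (fun d => (FF d : Set ℚ[X][X])) (GG N M) N M (FF 1 : Set ℚ[X][X]) S := by
  refine ⟨hS, ?_⟩
  intro x hx z hz T hT β i hi hi'
  rcases h x hx z hz with h1 | ⟨a, c, h1⟩
  · exact type2 _ h1 N T β i hi'
  · rw [h1]
    exact type1 M a c N T (fun β i h => hT β i (by omega)) β i hi

lemma cl_SS (N M : ℕ) : Clique (fun d => (FF d : Set ℚ[X][X])) (GG N M) N M (FF 1 : Set ℚ[X][X]) SS := by
  apply cl_of
  · rintro x (rfl | ⟨c, rfl⟩)
    · exact Y0_mem
    · exact Yc_mem c
  · rintro x (rfl | ⟨c, rfl⟩) z (rfl | ⟨c', rfl⟩)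
    · left; simp
    · right
      refine ⟨1, -c', ?_⟩
      unfold Y0 Yc
      simp only [map_one, map_neg]
      ring
    · right
      refine ⟨-1, c, ?_⟩
      unfold Y0 Yc
      simp only [map_one, map_neg]
      ring
    · left
      rw [coeff_sub, coeff_sub, coeff_Yc, coeff_Yc]
      simp

lemma cl_TT (N M : ℕ) : Clique (fun d => (FF d : Set ℚ[X][X])) (GG N M) N M (FF 1 : Set ℚ[X][X]) TT := by
  apply cl_of
  · rintro x (rfl | ⟨c, rfl⟩)
    · exact (FF 1).zero_mem
    · exact Yc_mem c
  · rintro x (rfl | ⟨c, rfl⟩) z (rfl | ⟨c', rfl⟩)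
    · left; simp
    · left
      rw [coeff_sub, coeff_sub, coeff_Yc]
      simp
    · left
      rw [coeff_sub, coeff_sub, coeff_Yc]
      simp
    · left
      rw [coeff_sub, coeff_sub, coeff_Yc, coeff_Yc]
      simp

/-- **three points**: one variable -/
lemma three1 (P : ℚ[X]) (N M β : ℕ) (hN : 2 * M + 2 ≤ N) (hβ : β ≤ M) (hP : P.natDegree ≤ M - β)
    (h : ∀ i, M < i → β + i < N → (P * (1 - X) ^ N).coeff i = 0) : P = 0 := by
  by_contra hne
  set Q := P * (1 - X) ^ N with hQ
  have h1X : (1 - X : ℚ[X]) = -(X - C 1) := by simp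
  have hdeg1 : (1 - X : ℚ[X]).natDegree = 1 := by
    rw [h1X, natDegree_neg, natDegree_X_sub_C]
  have hne1 : (1 - X : ℚ[X]) ≠ 0 := by
    intro h0
    rw [h0] at hdeg1
    simp at hdeg1
  have hQdeg : Q.natDegree = P.natDegree + N := by
    rw [hQ, natDegree_mul hne (pow_ne_zero _ hne1), natDegree_pow, hdeg1, mul_one]
  set Z := derivative^[M + 1] Q with hZ
  have hZ1 : (1 - X) ^ (N - (M + 1)) ∣ Z :=
    pow_sub_dvd_iterate_derivative_of_pow_dvd (M + 1) (Dvd.intro_left P hQ.symm)
  have hZ2 : X ^ (N - β - (M + 1)) ∣ Z := by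
    rw [X_pow_dvd_iff]
    intro d hd
    rw [hZ, coeff_iterate_derivative, h (d + (M + 1)) (by omega) (by omega), smul_zero]
  have hcop : IsCoprime ((1 - X : ℚ[X]) ^ (N - (M + 1))) (X ^ (N - β - (M + 1))) := by
    apply IsCoprime.pow
    exact ⟨1, 1, by ring⟩
  have hZ3 := hcop.mul_dvd hZ1 hZ2
  have hZ0 : Z = 0 := by
    by_contra hZne
    have h4 := natDegree_le_of_dvd hZ3 hZne
    rw [natDegree_mul (pow_ne_zero _ hne1) (pow_ne_zero _ X_ne_zero), natDegree_pow, hdeg1,
      natDegree_pow, natDegree_X] at h4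
    have h5 : Z.natDegree ≤ Q.natDegree - (M + 1) := natDegree_iterate_derivative Q (M + 1)
    rw [hQdeg] at h5
    omega
  have hc : ∀ i, M < i → Q.coeff i = 0 := by
    intro i hi
    have h6 : Z.coeff (i - (M + 1)) = 0 := by rw [hZ0, coeff_zero]
    rw [hZ, coeff_iterate_derivative, show i - (M + 1) + (M + 1) = i by omega] at h6
    rw [nsmul_eq_mul] at h6
    rcases mul_eq_zero.1 h6 with h7 | h7
    · exfalso
      have h8 : (i.descFactorial (M + 1) : ℚ) = 0 := by exact_mod_cast h7
      have h9 : i.descFactorial (M + 1) = 0 := by exact_mod_cast h8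
      rw [Nat.descFactorial_eq_zero_iff_lt] at h9
      omega
    · exact h7
  have hQne : Q ≠ 0 := mul_ne_zero hne (pow_ne_zero _ hne1)
  have h10 : Q.coeff Q.natDegree ≠ 0 := by
    rw [coeff_natDegree]
    exact leadingCoeff_ne_zero.2 hQne
  exact h10 (hc _ (by omega))

/-- **three points** -/
lemma three (T : ℚ[X][X]) (N M : ℕ) (hN : 2 * M + 2 ≤ N) (hT : T ∈ FF M)
    (h : T * Y0 ^ N ∈ GG N M) : T = 0 := by
  ext1 β
  rw [coeff_zero]
  by_cases hβ : β ≤ M
  · apply three1 (T.coeff β) N M β hN hβ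
    · rw [natDegree_le_iff_coeff_eq_zero]
      intro i hi
      exact hT β i (by omega)
    · intro i hi hi'
      have h1 := h β i hi hi'
      have h2 : Y0 ^ N = C ((1 - X) ^ N : ℚ[X]) := by
        unfold Y0
        simp
      rw [h2, coeff_mul_C] at h1
      exact h1
  · ext i
    rw [coeff_zero]
    exact hT β i (by omega)

lemma zero_of_eval (T : ℚ[X][X]) (h : ∀ z e : ℚ, ((T.eval (C e)).eval z) = 0) : T = 0 := by
  apply eq_zero_of_infinite_isRoot
  apply Set.Infinite.mono (s := Set.range (C : ℚ → ℚ[X]))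
  · rintro _ ⟨e, rfl⟩
    show T.eval (C e) = 0
    apply Polynomial.funext
    intro z
    rw [h, eval_zero]
  · exact Set.infinite_range_of_injective C_injective

/-- naturality of the bracket -/
lemma Br_map {A B : Type*} [CommRing A] [CommRing B] (f : A →+* B) (b : ℕ) (w : List ℕ) :
    ∀ (ys : List A) (q : A), f (Br b w ys q) = Br b w (ys.map f) (f q) := by
  induction w with
  | nil =>
    intro ys q
    match ys with
    | [] => simp [Br]
    | [x] => simp [Br]
    | _ :: _ :: _ => simp [Br]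
  | cons a w ih =>
    intro ys q
    match ys with
    | [] => simp [Br]
    | y :: ys =>
      have hl : ∀ (ys : List A) (y : A), f (ys.getLastD y) = (ys.map f).getLastD (f y) := by
        intro ys
        induction ys with
        | nil => intro y; rfl
        | cons z zs ihz => intro y; rw [List.getLastD_cons, List.map_cons, List.getLastD_cons, ihz]
      rw [List.map_cons, Br_cons, Br_cons, map_sub, map_sub, map_sub,
        D_map f a q (y :: ys) none _ (fun l => Br b w l (f q)) (fun l => ih l q)]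
      simp only [map_mul, map_pow, map_sub, map_neg, map_one, ih, hl, List.length_map,
        List.map_dropLast, List.map_cons, Option.map_none, List.map_reverse]

lemma R_mem (K : ℕ) (q : ℚ[X][X]) (hq : q ∈ FF 1) (w : List ℕ) :
    ∀ (d : ℕ) (_ : d + 2 * w.sum = K) (p : ℚ[X][X]) (_ : p ∈ FF 1) (ys : List ℚ[X][X])
    (_ : ∀ x ∈ ys, x ∈ FF 1), ∀ T ∈ FF d, T * R w (some p) ys q ∈ FF K := by
  induction w with
  | nil =>
    intro d hd p hp ys hys T hT
    have : d = K := by simpa using hd
    subst this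
    match ys with
    | [] => simpa using hT
    | _ :: _ => simp
  | cons a w ih =>
    intro d hd p hp ys hys T hT
    rw [R_cons]
    have hP : ∀ x ∈ (FF 1 : Set ℚ[X][X]), ∀ z ∈ (FF 1 : Set ℚ[X][X]), x - z ∈ (FF 1 : Set ℚ[X][X]) :=
      fun x hx z hz => (FF 1).sub_mem hx hz
    apply iso_D (fun d => (FF d : Set ℚ[X][X])) (FF K) (FF 1 : Set ℚ[X][X])
      (fun d e => FF_mul d e) hP a q hq (FF 1 : Set ℚ[X][X]) (le_refl _) d ys (some p)
      (fun x hx => by
        obtain rfl := Option.some.inj hx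
        exact hp) hys _ _ T hT
    intro l hl1 _ T' hT'
    rw [List.sum_cons] at hd
    exact ih _ (by omega) p hp l hl1 T' hT'

/-- **Isolation.** -/
theorem isolate (s n M : ℕ) (hM : 3 * M < n) (U : List (ℚ × List ℕ))
    (hU : ∀ a ∈ U, a.2.length = s + 1 ∧ a.2.sum ≤ M)
    (h : ∀ ys : List ℚ, ys.length = s + 2 → ev U (fun w => Br (n - w.sum) w ys 0) = 0) :
    ∀ ys : List ℚ, ys.length = s + 1 → ev U (fun w => R w (some 1) ys 0) = 0 := by
  intro ys hys
  set Y : List ℚ[X][X] := ys.map Yc with hY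
  set N := 2 * (n - M) with hN
  have hP : ∀ x ∈ (FF 1 : Set ℚ[X][X]), ∀ z ∈ (FF 1 : Set ℚ[X][X]), x - z ∈ (FF 1 : Set ℚ[X][X]) :=
    fun x hx z hz => (FF 1).sub_mem hx hz
  -- the functional with values in the polynomials
  have key : ∀ V : List (ℚ × List ℕ), (∀ a ∈ V, a.2.length = s + 1 ∧ a.2.sum ≤ M) →
      (V.map (fun a => C (C a.1) * Br (n - a.2.sum) a.2 (Y0 :: Y) 0)).sum -
      (V.map (fun a => C (C a.1) * (Y0 ^ (2 * (M - a.2.sum)) * R a.2 (some Y0) Y 0))).sum * Y0 ^ N
        ∈ GG N (2 * M) := by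
    intro V
    induction V with
    | nil => intro _; simp
    | cons a V ih =>
      intro hV
      obtain ⟨h1, h2⟩ := hV a List.mem_cons_self
      have h3 := ih (fun b hb => hV b (List.mem_cons_of_mem _ hb))
      have h4 := iso_2 (fun d => (FF d : Set ℚ[X][X])) (GG N (2 * M)) N (2 * M) (FF 1 : Set ℚ[X][X])
        (fun d e => FF_mul d e) hP (n - a.2.sum) (M - a.2.sum) (by omega) SS TT (cl_SS _ _) (cl_TT _ _)
        Y0 0 (Set.mem_insert _ _) (Set.mem_insert _ _) a.2 0 (by omega) (C (C a.1)) (by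
          intro β i hβ
          rw [coeff_C]
          split_ifs with hb
          · rw [coeff_C, if_neg (by omega)]
          · simp) Y (by rw [hY, List.length_map, hys, h1]) (by
          intro x hx
          rw [hY, List.mem_map] at hx
          obtain ⟨c, _, rfl⟩ := hx
          exact ⟨Set.mem_insert_of_mem _ ⟨c, rfl⟩, Set.mem_insert_of_mem _ ⟨c, rfl⟩⟩)
      have h5 : (2 * (n - a.2.sum)) = 2 * (M - a.2.sum) + N := by omega
      rw [List.map_cons, List.map_cons, List.sum_cons, List.sum_cons]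
      have h6 := (GG N (2 * M)).add_mem h4 h3
      rw [sub_zero, h5, pow_add] at h6
      have e : ∀ (a b c d e f : ℚ[X][X]), a * b + c - (a * (d * e) + f) * Y0 ^ N =
          a * (b - d * Y0 ^ N * e) + (c - f * Y0 ^ N) := by intros; ring
      rw [e]
      exact h6
  have h0 : (U.map (fun a : ℚ × List ℕ => C (C a.1) * Br (n - a.2.sum) a.2 (Y0 :: Y) 0)).sum = 0 := by
    apply zero_of_eval
    intro z e
    have hmap : ∀ V : List (ℚ × List ℕ),
        (((V.map (fun a : ℚ × List ℕ => C (C a.1) * Br (n - a.2.sum) a.2 (Y0 :: Y) 0)).sum).eval (C e)).eval z =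
        ev V (fun w => Br (n - w.sum) w
          ((Y0 :: Y).map ((evalRingHom z).comp (evalRingHom (C e)))) 0) := by
      intro V
      induction V with
      | nil => simp [ev_nil]
      | cons a V ih =>
        rw [List.map_cons, List.sum_cons, eval_add, eval_add, ih, ev_cons]
        congr 1
        rw [eval_mul, eval_mul, eval_C, eval_C]
        congr 1
        have := Br_map ((evalRingHom z).comp (evalRingHom (C e))) (n - a.2.sum) a.2 (Y0 :: Y) 0
        rw [map_zero] at this
        rw [← this]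
        rfl
    rw [hmap]
    apply h
    rw [List.length_map, List.length_cons, hY, List.length_map, hys]
  have h1 := key U hU
  rw [h0, zero_sub] at h1
  have h2 := (GG N (2 * M)).neg_mem h1
  rw [neg_neg] at h2
  have hF : ∀ V : List (ℚ × List ℕ), (∀ a ∈ V, a.2.sum ≤ M) →
      (V.map (fun a => C (C a.1) * (Y0 ^ (2 * (M - a.2.sum)) * R a.2 (some Y0) Y 0))).sum ∈
        FF (2 * M) := by
    intro V
    induction V with
    | nil => intro _; simp
    | cons a V ih =>
      intro hV
      rw [List.map_cons, List.sum_cons]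
      apply (FF (2 * M)).add_mem _ (ih (fun b hb => hV b (List.mem_cons_of_mem _ hb)))
      have h2 := hV a List.mem_cons_self
      rw [← mul_assoc]
      apply R_mem (2 * M) 0 (FF 1).zero_mem a.2 (2 * (M - a.2.sum)) (by omega) Y0 Y0_mem
      · intro x hx
        rw [hY, List.mem_map] at hx
        obtain ⟨c, _, rfl⟩ := hx
        exact Yc_mem c
      · have h7 := mul_pow_mem (fun d => (FF d : Set ℚ[X][X])) (FF 1 : Set ℚ[X][X])
          (fun d e => FF_mul d e) hP 0 (2 * (M - a.2.sum)) (C (C a.1)) (by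
          intro β i hβ
          rw [coeff_C]
          split_ifs with hb
          · rw [coeff_C, if_neg (by omega)]
          · simp) Y0 0 Y0_mem (FF 1).zero_mem
        rw [sub_zero, zero_add] at h7
        exact h7
  have h3 := three _ N (2 * M) (by omega) (hF U (fun a ha => (hU a ha).2)) h2
  have h4 := congrArg ((evalRingHom (0 : ℚ)).comp (evalRingHom (C (1 : ℚ)))) h3
  rw [map_zero] at h4
  have hY0 : ((evalRingHom (0 : ℚ)).comp (evalRingHom (C (1 : ℚ)))) Y0 = 1 := by
    simp [Y0]
  have hYc : Y.map ((evalRingHom (0 : ℚ)).comp (evalRingHom (C (1 : ℚ)))) = ys := by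
    rw [hY, List.map_map]
    conv_rhs => rw [← List.map_id ys]
    apply List.map_congr_left
    intro c _
    simp [Yc]
  have hmap : ∀ V : List (ℚ × List ℕ), ev V (fun w => R w (some 1) ys 0) =
      ((evalRingHom (0 : ℚ)).comp (evalRingHom (C (1 : ℚ))))
        (V.map (fun a => C (C a.1) * (Y0 ^ (2 * (M - a.2.sum)) * R a.2 (some Y0) Y 0))).sum := by
    intro V
    induction V with
    | nil => simp [ev_nil]
    | cons a V ih =>
      rw [List.map_cons, List.sum_cons, map_add, ← ih, ev_cons, map_mul, map_mul, map_pow, hY0,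
        one_pow, one_mul, R_map, hYc, Option.map_some, hY0, map_zero]
      congr 2
      simp
  exact (hmap U).trans h4

end Pool.Agent.D0H20.BK
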