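import Pool.Agent.D0H20.BK.Trans

/-!
# Relations between the brackets, dimensions
-/

set_option autoImplicit false

namespace Pool.Agent.D0H20.BK

open Finset

lemma ev_toList (S : Finset (List ℕ)) (lam : List ℕ → ℚ) (f : List ℕ → ℚ) :
    ev (S.toList.map (fun w => (lam w, w))) f = ∑ w ∈ S, lam w * f w := by
  unfold ev
  rw [List.map_map, ← Finset.sum_map_toList]
  rfl

/-- **The relations between the brackets.** -/
theorem rel (s n : ℕ) (S : Finset (List ℕ)) (lam : List ℕ → ℚ)
    (hS : ∀ w ∈ S, w.length = s + 1 ∧ (∀ x ∈ w, 1 ≤ x) ∧ 3 * w.sum < n)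
    (h : ∀ y : ℕ → ℚ, ∑ w ∈ S, lam w * bra (w ++ [n - w.sum]) y = 0) (m : ℕ) (y : ℕ → ℚ) :
    ∑ w ∈ S with w.sum = m, lam w * pro w y = 0 := by
  rcases S.eq_empty_or_nonempty with rfl | hne
  · simp
  set U : List (ℚ × List ℕ) := S.toList.map (fun w => (lam w, w)) with hU
  have hmem : ∀ a ∈ U, a.2 ∈ S := by
    intro a ha
    rw [hU, List.mem_map] at ha
    obtain ⟨w, hw, rfl⟩ := ha
    exact Finset.mem_toList.1 hw
  set M := S.sup List.sum with hM
  have hMn : 3 * M < n := by
    obtain ⟨w, hw, hw'⟩ := Finset.exists_mem_eq_sup S hne List.sum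
    rw [hM, hw']
    exact (hS w hw).2.2
  have h1 := isolate s n M hMn U
    (fun a ha => ⟨(hS _ (hmem a ha)).1, Finset.le_sup (f := List.sum) (hmem a ha)⟩) (by
    intro ys hys
    obtain ⟨z, hz⟩ := lst_surj ys
    rw [hU, ev_toList]
    refine Eq.trans ?_ (h z)
    apply sum_congr rfl
    intro w hw
    rw [bra_eq, (hS w hw).1, ← hz, hys])
  have h2 := thmC s U (fun a ha => (hS _ (hmem a ha)).2.1) h1
  -- separate the weights
  have h3 : ∀ ys : List ℚ, ys.length = s + 1 →
      (∑ w ∈ S, Polynomial.C (lam w * R w none ys 0) * Polynomial.X ^ (2 * w.sum)) = 0 := by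
    intro ys hys
    apply Polynomial.funext
    intro t
    rw [Polynomial.eval_finsetSum, Polynomial.eval_zero]
    have h4 := h2 (ys.map (fun x => t * x + 0)) (t * 0 + 0) none (by simp [hys])
    rw [hU, ev_toList] at h4
    refine Eq.trans ?_ h4
    apply sum_congr rfl
    intro w _
    have h5 := R_aff t 0 w none ys 0
    rw [Option.map_none] at h5
    rw [h5, Polynomial.eval_mul, Polynomial.eval_C, Polynomial.eval_pow, Polynomial.eval_X]
    ring
  have h6 := congrArg (fun P : Polynomial ℚ => P.coeff (2 * m)) (h3 (lst (s + 1) y) (by simp))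
  simp only [Polynomial.finsetSum_coeff, Polynomial.coeff_zero] at h6
  rw [← h6, sum_filter]
  apply sum_congr rfl
  intro w hw
  rw [Polynomial.coeff_C_mul, Polynomial.coeff_X_pow, pro_eq, (hS w hw).1]
  by_cases hm : w.sum = m
  · rw [if_pos hm, if_pos (by omega), mul_one]
  · rw [if_neg hm, if_neg (by omega), mul_zero]

/-- the part of depth `r` and weight `2 n + r` of the Lie algebra -/
def Lsp (r n : ℕ) : Submodule ℚ ((ℕ → ℚ) → ℚ) :=
  Submodule.span ℚ {g | ∃ b : List ℕ, b.length = r ∧ b.sum = n ∧ (∀ x ∈ b, 1 ≤ x) ∧ g = bra b}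

/-- the part of depth `s` and weight `2 m + s` of the enveloping algebra -/
def Usp (s m : ℕ) : Submodule ℚ ((ℕ → ℚ) → ℚ) :=
  Submodule.span ℚ {g | ∃ b : List ℕ, b.length = s ∧ b.sum = m ∧ (∀ x ∈ b, 1 ≤ x) ∧ g = pro b}

/-- words with positive letters, length `s` and sum at most `K` -/
def W : ℕ → ℕ → Finset (List ℕ)
  | 0, _ => {[]}
  | s + 1, K => (range K).biUnion (fun b => (W s (K - (b + 1))).image (fun w => (b + 1) :: w))

lemma mem_W (s : ℕ) : ∀ (K : ℕ) (w : List ℕ), w ∈ W s K ↔
    w.length = s ∧ (∀ x ∈ w, 1 ≤ x) ∧ w.sum ≤ K := by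
  induction s with
  | zero =>
    intro K w
    rw [W, mem_singleton]
    constructor
    · rintro rfl; simp
    · rintro ⟨h, -⟩; exact List.length_eq_zero_iff.1 h
  | succ s ih =>
    intro K w
    rw [W, mem_biUnion]
    constructor
    · rintro ⟨b, hb, hw⟩
      rw [mem_image] at hw
      obtain ⟨v, hv, rfl⟩ := hw
      rw [ih] at hv
      rw [mem_range] at hb
      refine ⟨by simp [hv.1], ?_, ?_⟩
      · intro x hx
        rcases List.mem_cons.1 hx with rfl | hx
        · omega
        · exact hv.2.1 x hx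
      · rw [List.sum_cons]
        have := hv.2.2
        omega
    · rintro ⟨h1, h2, h3⟩
      match w, h1 with
      | b :: w, h1 =>
        have hb : 1 ≤ b := h2 b List.mem_cons_self
        rw [List.sum_cons] at h3
        refine ⟨b - 1, mem_range.2 (by omega), mem_image.2 ⟨w, (ih _ _).2 ⟨by simpa using h1,
          fun x hx => h2 x (List.mem_cons_of_mem _ hx), by omega⟩, ?_⟩⟩
        congr 1
        omega

lemma hockey (s K : ℕ) : ∑ b ∈ range K, (K - (b + 1)).choose s = K.choose (s + 1) := by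
  induction K with
  | zero => simp
  | succ K ih =>
    rw [sum_range_succ', Nat.choose_succ_succ, ← ih, add_comm]
    congr 1
    apply sum_congr rfl
    intro b _
    congr 1
    omega

lemma card_W (s : ℕ) : ∀ K : ℕ, (W s K).card = K.choose s := by
  induction s with
  | zero => intro K; simp [W]
  | succ s ih =>
    intro K
    rw [W, card_biUnion]
    · rw [← hockey]
      apply sum_congr rfl
      intro b _
      rw [card_image_of_injective _ (fun v w h => by simpa using h), ih]
    · intro a _ b _ hab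
      refine Finset.disjoint_left.2 ?_
      rintro w hw hw'
      rw [mem_image] at hw hw'
      obtain ⟨v, _, rfl⟩ := hw
      obtain ⟨v', _, h⟩ := hw'
      simp at h
      omega

/-- a basis inside a finite family -/
lemma exists_basis' {ι V : Type} [AddCommGroup V] [Module ℚ V] [DecidableEq ι] (T : Finset ι)
    (v : ι → V) : ∃ B ⊆ T, B.card = Module.finrank ℚ (Submodule.span ℚ (v '' (T : Set ι))) ∧
      ∀ lam : ι → ℚ, ∑ i ∈ B, lam i • v i = 0 → ∀ i ∈ B, lam i = 0 := by
  obtain ⟨κ, a, ha, hspan, hli⟩ := exists_linearIndependent' ℚ (fun i : T => v i)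
  have : Finite κ := Finite.of_injective a ha
  have := Fintype.ofFinite κ
  have hinj : Function.Injective (fun k : κ => (a k : ι)) := Subtype.val_injective.comp ha
  refine ⟨univ.image (fun k : κ => (a k : ι)), ?_, ?_, ?_⟩
  · intro i hi
    rw [mem_image] at hi
    obtain ⟨k, _, rfl⟩ := hi
    exact (a k).2
  · rw [card_image_of_injective _ hinj, Set.image_eq_range, card_univ]
    have h1 := finrank_span_eq_card hli
    rw [hspan] at h1
    exact h1.symm
  · intro lam h i hi
    rw [sum_image (fun x _ y _ h => hinj h)] at h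
    rw [mem_image] at hi
    obtain ⟨k, _, rfl⟩ := hi
    exact Fintype.linearIndependent_iff.1 hli (fun k => lam (a k)) h k

lemma exists_basis (s m : ℕ) : ∃ B : Finset (List ℕ),
    (∀ w ∈ B, w.length = s ∧ (∀ x ∈ w, 1 ≤ x) ∧ w.sum = m) ∧
    B.card = Module.finrank ℚ (Usp s m) ∧
    ∀ lam : List ℕ → ℚ, ∑ w ∈ B, lam w • pro w = 0 → ∀ w ∈ B, lam w = 0 := by
  obtain ⟨B, hB1, hB2, hB3⟩ := exists_basis' ((W s m).filter (fun w => w.sum = m)) pro
  have hset : pro '' (((W s m).filter (fun w => w.sum = m) : Finset (List ℕ)) : Set (List ℕ)) =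
      {g | ∃ b : List ℕ, b.length = s ∧ b.sum = m ∧ (∀ x ∈ b, 1 ≤ x) ∧ g = pro b} := by
    ext g
    constructor
    · rintro ⟨w, hw, rfl⟩
      rw [mem_coe, mem_filter, mem_W] at hw
      exact ⟨w, hw.1.1, hw.2, hw.1.2.1, rfl⟩
    · rintro ⟨w, h1, h2, h3, rfl⟩
      refine ⟨w, ?_, rfl⟩
      rw [mem_coe, mem_filter, mem_W]
      exact ⟨⟨h1, h3, h2.le⟩, h2⟩
  refine ⟨B, fun w hw => ?_, ?_, hB3⟩
  · have := hB1 hw
    rw [mem_filter, mem_W] at this
    exact ⟨this.1.1, this.1.2.1, this.2⟩
  · rw [hB2, hset]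
    rfl

instance finite_L (r n : ℕ) : Module.Finite ℚ (Lsp r n) := by
  unfold Lsp
  apply Module.Finite.span_of_finite
  apply Set.Finite.subset (Set.toFinite (bra '' ((W r n : Finset (List ℕ)) : Set (List ℕ))))
  rintro g ⟨b, h1, h2, h3, rfl⟩
  exact ⟨b, (mem_coe.2 ((mem_W r n b).2 ⟨h1, h3, h2.le⟩)), rfl⟩

instance finite_U (s m : ℕ) : Module.Finite ℚ (Usp s m) := by
  unfold Usp
  apply Module.Finite.span_of_finite
  apply Set.Finite.subset (Set.toFinite (pro '' ((W s m : Finset (List ℕ)) : Set (List ℕ))))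
  rintro g ⟨b, h1, h2, h3, rfl⟩
  exact ⟨b, (mem_coe.2 ((mem_W s m b).2 ⟨h1, h3, h2.le⟩)), rfl⟩

/-- **The dimension inequality.** -/
theorem dims (s n : ℕ) :
    ∑ m ∈ range n with 3 * m < n, Module.finrank ℚ (Usp (s + 1) m) ≤ Module.finrank ℚ (Lsp (s + 2) n) := by
  choose B hB1 hB2 hB3 using exists_basis (s + 1)
  set I : Finset (List ℕ) := ((range n).filter (fun m => 3 * m < n)).biUnion B with hI
  have hcard : I.card = ∑ m ∈ range n with 3 * m < n, Module.finrank ℚ (Usp (s + 1) m) := by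
    rw [hI, card_biUnion]
    · exact sum_congr rfl (fun m _ => hB2 m)
    · intro a _ b _ hab
      refine Finset.disjoint_left.2 ?_
      intro w hw hw'
      exact hab ((hB1 a w hw).2.2.symm.trans (hB1 b w hw').2.2)
  have hImem : ∀ w ∈ I, w ∈ B w.sum ∧ 3 * w.sum < n := by
    intro w hw
    rw [hI, mem_biUnion] at hw
    obtain ⟨m, hm, hw⟩ := hw
    rw [mem_filter] at hm
    rw [(hB1 m w hw).2.2]
    exact ⟨hw, hm.2⟩
  rw [← hcard, ← Fintype.card_coe]
  have hmemL : ∀ w : I, bra (w.1 ++ [n - w.1.sum]) ∈ Lsp (s + 2) n := by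
    intro w
    obtain ⟨h1, h2⟩ := hImem w.1 w.2
    obtain ⟨h3, h4, -⟩ := hB1 _ _ h1
    apply Submodule.subset_span
    refine ⟨_, by simp [h3], ?_, ?_, rfl⟩
    · rw [List.sum_append, List.sum_singleton]
      omega
    · intro x hx
      rcases List.mem_append.1 hx with hx | hx
      · exact h4 x hx
      · rw [List.mem_singleton] at hx
        omega
  have hli : LinearIndependent ℚ (fun w : I => (⟨_, hmemL w⟩ : Lsp (s + 2) n)) := by
    rw [Fintype.linearIndependent_iff]
    intro g hg i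
    have hg' : ∑ w : I, g w • bra (w.1 ++ [n - w.1.sum]) = 0 := by
      have := congrArg Subtype.val hg
      simpa using this
    classical
    set lam : List ℕ → ℚ := fun w => if h : w ∈ I then g ⟨w, h⟩ else 0 with hlam
    have hlam' : ∀ w : I, lam w.1 = g w := by
      intro w
      rw [hlam]
      simp only [w.2, dif_pos]
    have h1 : ∀ y : ℕ → ℚ, ∑ w ∈ I, lam w * bra (w ++ [n - w.sum]) y = 0 := by
      intro y
      have h2 := congrFun hg' y
      rw [Finset.sum_apply, Pi.zero_apply] at h2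
      rw [← h2, ← sum_coe_sort]
      apply sum_congr rfl
      intro w _
      rw [hlam' w]
      rfl
    have h3 := rel s n I lam (fun w hw => ⟨(hB1 _ _ (hImem w hw).1).1, (hB1 _ _ (hImem w hw).1).2.1,
      (hImem w hw).2⟩) h1
    have h4 : ∀ m, I.filter (fun w => w.sum = m) ⊆ B m := by
      intro m w hw
      rw [mem_filter] at hw
      have := (hImem w hw.1).1
      rwa [hw.2] at this
    rw [← hlam' i]
    have h5 : I.filter (fun w => w.sum = i.1.sum) = B i.1.sum := by
      apply subset_antisymm (h4 _)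
      intro w hw
      rw [mem_filter]
      refine ⟨?_, (hB1 _ _ hw).2.2⟩
      rw [hI, mem_biUnion]
      refine ⟨i.1.sum, ?_, hw⟩
      have := (hImem i.1 i.2).2
      rw [mem_filter, mem_range]
      exact ⟨by omega, this⟩
    apply hB3 i.1.sum lam _ i.1 (hImem i.1 i.2).1
    rw [← h5]
    funext y
    rw [Finset.sum_apply, Pi.zero_apply]
    exact h3 i.1.sum y
  exact hli.fintype_card_le_finrank

end Pool.Agent.D0H20.BK
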