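import Pool.Agent.D0H20.BK.Calc

/-!
# The values at `p = 1`, `q = 0` determine the action of a combination of words
-/

set_option autoImplicit false

namespace Pool.Agent.D0H20.BK

section nat

variable {A B : Type*} [CommRing A] [CommRing B]

lemma ko_map (f : A →+* B) (b : ℕ) (p : Option A) (y : A) : f (ko b p y) = ko b (p.map f) (f y) := by
  cases p <;> simp [ko]

lemma headD_map {A' B' : Type*} (f : A' → B') (ys : List A') (q : A') : f (ys.headD q) = (ys.map f).headD (f q) := by
  cases ys <;> rfl

lemma D_map (f : A →+* B) (b : ℕ) (q : A) (ys : List A) : ∀ (p : Option A) (F : List A → A)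
    (G : List B → B) (_ : ∀ l, f (F l) = G (l.map f)),
    f (D b p ys q F) = D b (p.map f) (ys.map f) (f q) G := by
  induction ys with
  | nil => intros; simp
  | cons y ys ih =>
    intro p F G h
    rw [List.map_cons, D_cons, D_cons, map_add, map_mul, map_sub, map_pow, map_sub, headD_map f,
      ko_map, h, ih (some y) _ (fun l => G (f y :: l)) (fun l => by rw [h, List.map_cons])]
    rfl

/-- naturality -/
lemma R_map (f : A →+* B) (w : List ℕ) : ∀ (p : Option A) (ys : List A) (q : A),
    f (R w p ys q) = R w (p.map f) (ys.map f) (f q) := by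
  induction w with
  | nil => intro p ys q; cases ys <;> simp
  | cons b w ih =>
    intro p ys q
    rw [R_cons, R_cons]
    exact D_map f b q ys p _ _ (fun l => ih p l q)

lemma D_aff (t c : A) (b : ℕ) (q : A) (ys : List A) (k : A) : ∀ (p : Option A) (F G : List A → A)
    (_ : ∀ l, G (l.map (fun x => t * x + c)) = k * F l),
    D b (p.map (fun x => t * x + c)) (ys.map (fun x => t * x + c)) (t * q + c) G =
      t ^ (2 * b) * k * D b p ys q F := by
  induction ys with
  | nil => intros; simp
  | cons y ys ih =>
    intro p F G h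
    have hs : ∀ x y : A, (t * x + c - (t * y + c)) ^ (2 * b) = t ^ (2 * b) * (x - y) ^ (2 * b) := by
      intro x y
      rw [← mul_pow]
      congr 1
      ring
    have hk : ko b (p.map (fun x => t * x + c)) (t * y + c) = t ^ (2 * b) * ko b p y := by
      cases p with
      | none => simp
      | some x => simp only [Option.map_some, ko_some]; exact hs x y
    rw [List.map_cons, D_cons, D_cons, h, hk]
    have h1 : t * (ys.headD q) + c = (ys.map (fun x => t * x + c)).headD (t * q + c) :=
      headD_map (fun x => t * x + c) ys q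
    rw [← h1, hs]
    have h2 := ih (some y) (fun l => F (y :: l)) (fun l => G ((t * y + c) :: l)) (fun l => by
      rw [← h, List.map_cons])
    rw [Option.map_some] at h2
    rw [h2]
    ring

/-- affine maps -/
lemma R_aff (t c : A) (w : List ℕ) : ∀ (p : Option A) (ys : List A) (q : A),
    R w (p.map (fun x => t * x + c)) (ys.map (fun x => t * x + c)) (t * q + c) =
      t ^ (2 * w.sum) * R w p ys q := by
  induction w with
  | nil => intro p ys q; cases ys <;> simp
  | cons b w ih =>
    intro p ys q
    rw [R_cons, R_cons, D_aff t c b q ys (t ^ (2 * w.sum)) p (fun l => R w p l q) _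
      (fun l => ih p l q), List.sum_cons, ← pow_add]
    congr 2
    ring

lemma D_const (b : ℕ) (hb : 1 ≤ b) (c : A) (n : ℕ) : ∀ (p : Option A) (_ : p = none ∨ p = some c)
    (F : List A → A), D b p (List.replicate n c) c F = 0 := by
  induction n with
  | zero => intros; simp
  | succ n ih =>
    intro p hp F
    rw [List.replicate_succ, D_cons, ih _ (Or.inr rfl)]
    have h1 : (List.replicate n c).headD c = c := by cases n <;> rfl
    have h2 : ko b p c = 0 := by
      rcases hp with rfl | rfl
      · rfl
      · simp only [ko_some, sub_self]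
        exact zero_pow (by omega)
    rw [h1, h2, sub_self, zero_pow (by omega)]
    ring

end nat

/-- a combination of words as a functional -/
def ev (U : List (ℚ × List ℕ)) (f : List ℕ → ℚ) : ℚ := (U.map (fun a => a.1 * f a.2)).sum

lemma ev_nil (f : List ℕ → ℚ) : ev [] f = 0 := rfl
lemma ev_cons (a : ℚ × List ℕ) (U : List (ℚ × List ℕ)) (f : List ℕ → ℚ) :
    ev (a :: U) f = a.1 * f a.2 + ev U f := by simp [ev]

lemma ev_add (U : List (ℚ × List ℕ)) (f g : List ℕ → ℚ) :
    ev U (fun w => f w + g w) = ev U f + ev U g := by
  induction U with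
  | nil => simp [ev_nil]
  | cons a U ih => rw [ev_cons, ev_cons, ev_cons, ih]; ring

lemma ev_zero (U : List (ℚ × List ℕ)) : ev U (fun _ => 0) = 0 := by
  induction U with
  | nil => rfl
  | cons a U ih => rw [ev_cons, ih]; ring

lemma ev_congr (U : List (ℚ × List ℕ)) (f g : List ℕ → ℚ) (h : ∀ a ∈ U, f a.2 = g a.2) :
    ev U f = ev U g := by
  induction U with
  | nil => rfl
  | cons a U ih =>
    rw [ev_cons, ev_cons, h a List.mem_cons_self, ih (fun a ha => h a (List.mem_cons_of_mem _ ha))]

lemma ev_sh (U : List (ℚ × List ℕ)) (n : ℕ) : ∀ (ys zs : List ℚ)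
    (_ : ys.length + zs.length = n) (G : List ℕ → List ℚ → ℚ),
    ev U (fun w => sh ys zs (G w)) = sh ys zs (fun l => ev U (fun w => G w l)) := by
  induction n with
  | zero =>
    intro ys zs h G
    have h1 : ys = [] := List.length_eq_zero_iff.1 (by omega)
    subst h1
    simp
  | succ n ih =>
    intro ys zs h G
    cases ys with
    | nil => simp
    | cons y ys =>
      cases zs with
      | nil => simp
      | cons z zs =>
        simp only [sh_cons_cons]
        rw [ev_add, ih ys (z :: zs) (by simp at h ⊢; omega), ih (y :: ys) zs (by simp at h ⊢; omega)]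

lemma ev_dec (U : List (ℚ × List ℕ)) (zs : List ℚ) : ∀ (G : List ℕ → List ℚ → ℚ → List ℚ → ℚ),
    ev U (fun w => dec zs (G w)) = dec zs (fun l x r => ev U (fun w => G w l x r)) := by
  induction zs with
  | nil => intro G; simp [ev_zero]
  | cons z zs ih =>
    intro G
    simp only [dec_cons]
    rw [ev_add, ih]

/-- the list of the decompositions of a word in two subwords -/
def unshL : List ℕ → List (List ℕ × List ℕ)
  | [] => [([], [])]
  | b :: u => (unshL u).map (fun a => (b :: a.1, a.2)) ++ (unshL u).map (fun a => (a.1, b :: a.2))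

lemma unsh_eq (w : List ℕ) : ∀ (G : List ℕ → List ℕ → ℚ),
    unsh w G = ((unshL w).map (fun a => G a.1 a.2)).sum := by
  induction w with
  | nil => intro G; simp [unsh, unshL]
  | cons b w ih =>
    intro G
    rw [unsh, ih, ih, unshL, List.map_append, List.sum_append, List.map_map, List.map_map]
    rfl

lemma mem_unshL (w : List ℕ) : ∀ a ∈ unshL w, (∀ x ∈ a.1, x ∈ w) ∧ ∀ x ∈ a.2, x ∈ w := by
  induction w with
  | nil => intro a ha; simp [unshL] at ha; subst ha; simp
  | cons b w ih =>
    intro a ha
    rw [unshL, List.mem_append, List.mem_map, List.mem_map] at ha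
    rcases ha with ⟨c, hc, rfl⟩ | ⟨c, hc, rfl⟩
    · obtain ⟨h1, h2⟩ := ih c hc
      refine ⟨fun x hx => ?_, fun x hx => List.mem_cons_of_mem _ (h2 x hx)⟩
      rcases List.mem_cons.1 hx with rfl | hx
      · exact List.mem_cons_self
      · exact List.mem_cons_of_mem _ (h1 x hx)
    · obtain ⟨h1, h2⟩ := ih c hc
      refine ⟨fun x hx => List.mem_cons_of_mem _ (h1 x hx), fun x hx => ?_⟩
      rcases List.mem_cons.1 hx with rfl | hx
      · exact List.mem_cons_self
      · exact List.mem_cons_of_mem _ (h2 x hx)

/-- contraction of one factor -/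
def con (U : List (ℚ × List ℕ)) (g : List ℕ → ℚ) : List (ℚ × List ℕ) :=
  U.flatMap (fun a => (unshL a.2).map (fun c => (a.1 * g c.2, c.1)))

lemma ev_con (U : List (ℚ × List ℕ)) (g f : List ℕ → ℚ) :
    ev (con U g) f = ev U (fun w => unsh w (fun v u => g u * f v)) := by
  induction U with
  | nil => rfl
  | cons a U ih =>
    unfold con at ih ⊢
    rw [List.flatMap_cons, ev_cons, ← ih]
    unfold ev
    rw [List.map_append, List.sum_append, List.map_map]
    congr 1
    rw [unsh_eq, ← List.sum_map_mul_left]
    congr 1
    apply List.map_congr_left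
    intro c _
    simp only [Function.comp]
    ring

lemma con_one (U : List (ℚ × List ℕ)) (g : List ℕ → ℚ) (h : ∀ a ∈ U, ∀ x ∈ a.2, 1 ≤ x) :
    ∀ a ∈ con U g, ∀ x ∈ a.2, 1 ≤ x := by
  intro a ha x hx
  unfold con at ha
  rw [List.mem_flatMap] at ha
  obtain ⟨c, hc, hac⟩ := ha
  rw [List.mem_map] at hac
  obtain ⟨d, hd, rfl⟩ := hac
  exact h c hc x ((mem_unshL _ d hd).1 x hx)

/-- a periodic polynomial is constant -/
lemma periodic (P : Polynomial ℚ) (h : ∀ x : ℚ, P.eval (x + 2) = P.eval x) (x y : ℚ) :
    P.eval x = P.eval y := by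
  have h1 : ∀ n : ℕ, P.eval (2 * (n : ℚ)) = P.eval 0 := by
    intro n
    induction n with
    | zero => simp
    | succ n ih =>
      rw [← ih, ← h (2 * (n : ℚ))]
      congr 1
      push_cast
      ring
  have h2 : P = Polynomial.C (P.eval 0) := by
    apply Polynomial.eq_of_infinite_eval_eq
    apply Set.Infinite.mono (s := Set.range (fun n : ℕ => 2 * (n : ℚ)))
    · rintro _ ⟨n, rfl⟩
      simp only [Set.mem_ofPred_eq, Polynomial.eval_C]
      exact h1 n
    · apply Set.infinite_range_of_injective
      intro a b hab
      simpa using hab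
  rw [h2]
  simp

/-- the polynomial in the first variable -/
lemma poly_first (U : List (ℚ × List ℕ)) (ys : List ℚ) (q : ℚ) :
    ∃ P : Polynomial ℚ, ∀ x : ℚ, P.eval x = ev U (fun w => R w none (x :: ys) q) := by
  induction U with
  | nil => exact ⟨0, fun x => by simp [ev_nil]⟩
  | cons a U ih =>
    obtain ⟨P, hP⟩ := ih
    refine ⟨Polynomial.C a.1 * R a.2 none (Polynomial.X :: ys.map Polynomial.C) (Polynomial.C q) + P,
      fun x => ?_⟩
    rw [Polynomial.eval_add, hP, ev_cons, Polynomial.eval_mul, Polynomial.eval_C]
    congr 2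
    have h := R_map (Polynomial.evalRingHom x) a.2 none (Polynomial.X :: ys.map Polynomial.C)
      (Polynomial.C q)
    rw [Polynomial.coe_evalRingHom] at h
    rw [h]
    simp only [Option.map_none, List.map_cons, Polynomial.eval_X, List.map_map, Polynomial.eval_C]
    congr 2
    have : (Polynomial.eval x ∘ Polynomial.C : ℚ → ℚ) = id := by
      funext t
      simp
    rw [this, List.map_id]

/-- **Theorem C.** -/
theorem thmC (s : ℕ) : ∀ (U : List (ℚ × List ℕ)) (_ : ∀ a ∈ U, ∀ x ∈ a.2, 1 ≤ x)
    (_ : ∀ ys : List ℚ, ys.length = s + 1 → ev U (fun w => R w (some 1) ys 0) = 0)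
    (ys : List ℚ) (q : ℚ) (p : Option ℚ), ys.length = s + 1 → ev U (fun w => R w p ys q) = 0 := by
  induction s using Nat.strong_induction_on with
  | _ s ih =>
  intro U hU h0
  -- the middle terms
  have hmid1 : ∀ (ys zs : List ℚ) (x : ℚ), 1 ≤ ys.length → 1 ≤ zs.length →
      ys.length + zs.length = s + 1 →
      ev U (fun w => unsh w (fun v u => R u (some 1) zs 0 * R v none ys x)) = 0 := by
    intro ys zs x h1 h2 h3
    rw [← ev_con U (fun u => R u (some 1) zs 0) (fun v => R v none ys x)]
    apply ih (ys.length - 1) (by omega) _ (con_one U _ hU) _ ys x none (by omega)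
    intro ys' hys'
    rw [ev_con]
    have h4 : ∀ w, unsh w (fun v u => R u (some 1) zs 0 * R v (some 1) ys' 0) =
        sh ys' zs (fun l => R w (some 1) l 0) := by
      intro w
      rw [sh_R]
      congr 1
      funext v u
      ring
    simp only [h4]
    rw [ev_sh U _ ys' zs rfl (fun w l => R w (some 1) l 0)]
    rw [sh_congr _ _ _ rfl _ (fun _ => 0) (fun l hl => h0 l (by omega)), sh_zero]
  have hmid2 : ∀ (ys zs : List ℚ) (x q : ℚ) (p : Option ℚ), 1 ≤ ys.length → 1 ≤ zs.length →
      ys.length + zs.length = s + 1 →
      ev U (fun w => unsh w (fun v u => R v none ys x * R u p zs q)) = 0 := by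
    intro ys zs x q p h1 h2 h3
    have h5 : ∀ w, unsh w (fun v u => R v none ys x * R u p zs q) =
        unsh w (fun v u => R u none ys x * R v p zs q) := by
      intro w
      exact unsh_comm w _
    simp only [h5]
    rw [← ev_con U (fun u => R u none ys x) (fun v => R v p zs q)]
    apply ih (zs.length - 1) (by omega) _ (con_one U _ hU) _ zs q p (by omega)
    intro zs' hzs'
    rw [ev_con]
    have h4 : ∀ w, unsh w (fun v u => R u none ys x * R v (some 1) zs' 0) =
        unsh w (fun v u => R u (some 1) zs' 0 * R v none ys x) := by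
      intro w
      rw [unsh_comm]
      congr 1
      funext v u
      ring
    simp only [h4]
    exact hmid1 ys zs' x h1 (by omega) (by omega)
  -- the cyclic identity
  have hcyc : ∀ (zs : List ℚ) (z y q : ℚ), zs.length = s →
      ev U (fun w => R w none (zs ++ [y]) q) =
        ev U (fun w => R w (some z) (zs ++ [y]) q) + ev U (fun w => R w none (z :: zs) y) := by
    intro zs z y q hzs
    have h1 : ∀ w, R w none (zs ++ [y]) q = R w (some z) (zs ++ [y]) q + R w none (z :: zs) y +
      dec zs (fun l x r => unsh w (fun v u => R v none (z :: l) x * R u (some x) (r ++ [y]) q)) :=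
      fun w => cyc q w z y zs
    rw [funext h1, ev_add, ev_add, ev_dec]
    rw [dec_zero zs _ (fun l x r hl => ?_), add_zero]
    apply hmid2 (z :: l) (r ++ [y]) x q (some x) (by simp) (by simp)
    rw [hl] at hzs
    simp at hzs ⊢
    omega
  -- the two shifts
  have hshift : ∀ (t : ℚ) (_ : t = 1 ∨ t = -1) (zs : List ℚ) (y q : ℚ), zs.length = s →
      ev U (fun w => R w (some (q + t)) (zs ++ [y]) q) = 0 := by
    intro t ht zs y q hzs
    have h1 : ∀ w, R w (some (q + t)) (zs ++ [y]) q =
        R w (some 1) ((zs ++ [y]).map (fun x => t * (x - q))) 0 := by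
      intro w
      have h2 := R_aff t q w (some 1) ((zs ++ [y]).map (fun x => t * (x - q))) 0
      have h3 : ((zs ++ [y]).map (fun x => t * (x - q))).map (fun x => t * x + q) = zs ++ [y] := by
        rw [List.map_map]
        conv_rhs => rw [← List.map_id (zs ++ [y])]
        apply List.map_congr_left
        intro x _
        simp only [Function.comp, id]
        rcases ht with rfl | rfl <;> ring
      have h4 : t ^ (2 * w.sum) = 1 := by
        rcases ht with rfl | rfl
        · simp
        · rw [pow_mul]; simp
      rw [h3, h4, one_mul, Option.map_some] at h2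
      rw [← h2]
      congr 2 <;> ring_nf
    rw [funext h1]
    exact h0 _ (by simp [hzs])
  have hper : ∀ (zs : List ℚ) (y x x' : ℚ), zs.length = s →
      ev U (fun w => R w none (x :: zs) y) = ev U (fun w => R w none (x' :: zs) y) := by
    intro zs y x x' hzs
    obtain ⟨P, hP⟩ := poly_first U zs y
    rw [← hP, ← hP]
    apply periodic
    intro a
    rw [hP, hP]
    have h1 := hcyc zs (a + 2) y (a + 1) hzs
    have h2 := hcyc zs a y (a + 1) hzs
    have h3 := hshift 1 (Or.inl rfl) zs y (a + 1) hzs
    have h4 := hshift (-1) (Or.inr rfl) zs y (a + 1) hzs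
    rw [show a + 1 + 1 = a + 2 by ring] at h3
    rw [show a + 1 + -1 = a by ring] at h4
    rw [h3] at h1
    rw [h4] at h2
    linarith
  -- the function of `s + 2` arguments
  have hrot : ∀ (zs : List ℚ) (y q x : ℚ), zs.length = s →
      ev U (fun w => R w none (zs ++ [y]) q) = ev U (fun w => R w none (x :: zs) y) := by
    intro zs y q x hzs
    rw [hper zs y x (q + 1) hzs, hcyc zs (q + 1) y q hzs, hshift 1 (Or.inl rfl) zs y q hzs, zero_add]
  have hzero : ∀ (ys : List ℚ) (k : ℕ) (q : ℚ), ys.length + k = s + 1 →
      ev U (fun w => R w none (List.replicate k 0 ++ ys) q) = 0 := by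
    intro ys
    induction ys using List.reverseRecOn with
    | nil =>
      intro k q hk
      have hk' : k = s + 1 := by simpa using hk
      subst hk'
      rw [List.append_nil, List.replicate_succ', hrot _ 0 q 0 (by simp)]
      have h1 : (0 : ℚ) :: List.replicate s 0 = List.replicate (s + 1) 0 := by
        rw [List.replicate_succ]
      rw [h1, ev_congr U _ (fun _ => 0) (fun a ha => ?_), ev_zero]
      obtain ⟨c, w⟩ := a
      cases w with
      | nil => simp [List.replicate_succ]
      | cons b w =>
        rw [R_cons]
        exact D_const b (hU _ ha b List.mem_cons_self) 0 (s + 1) none (Or.inl rfl) _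
    | append_singleton ys y ihy =>
      intro k q hk
      rw [List.length_append, List.length_singleton] at hk
      rw [← List.append_assoc, hrot _ y q 0 (by simp; omega), ← List.cons_append]
      have h1 : (0 : ℚ) :: List.replicate k 0 = List.replicate (k + 1) 0 := by
        rw [List.replicate_succ]
      rw [h1]
      exact ihy (k + 1) y (by omega)
  have hnone : ∀ (ys : List ℚ) (q : ℚ), ys.length = s + 1 → ev U (fun w => R w none ys q) = 0 := by
    intro ys q hys
    have := hzero ys 0 q (by omega)
    simpa using this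
  intro ys q p hys
  cases p with
  | none => exact hnone ys q hys
  | some z =>
    rcases List.eq_nil_or_concat ys with rfl | ⟨zs, y, rfl⟩
    · simp at hys
    · rw [List.concat_eq_append] at hys ⊢
      rw [List.length_append, List.length_singleton] at hys
      have h1 := hcyc zs z y q (by omega)
      rw [hnone _ _ (by simp; omega), hnone _ _ (by simp; omega)] at h1
      linarith

end Pool.Agent.D0H20.BK
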