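import Pool.Agent.D0H20.BK.Iso2

/-!
# From functions of sequences to functions of lists
-/

set_option autoImplicit false

namespace Pool.Agent.D0H20.BK

open Finset

/-- the variable `y_j` is dropped -/
def om (j : ℕ) (y : ℕ → ℚ) : ℕ → ℚ := fun i => if i < j then y i else y (i + 1)

/-- the action `f ∘ g` -/
def ci (s b : ℕ) (g : (ℕ → ℚ) → ℚ) (y : ℕ → ℚ) : ℚ :=
  y s ^ (2 * b) * g y +
    ∑ j ∈ range s, (y j - y (j + 1)) ^ (2 * b) * (g (om j y) - g (om (j + 1) y))

/-- the action `g ∘ f` -/
def ci' (s b : ℕ) (g : (ℕ → ℚ) → ℚ) (y : ℕ → ℚ) : ℚ :=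
  y 0 ^ (2 * b) * g (fun i => y (i + 1)) + y s ^ (2 * b) * g (fun i => y i - y s) +
    (-1) ^ s * y 0 ^ (2 * b) * g (fun i => y (s - i) - y 0)

/-- the iterated bracket -/
def bra : List ℕ → (ℕ → ℚ) → ℚ
  | [], _ => 0
  | [b], y => y 0 ^ (2 * b)
  | b :: b' :: u, y => ci (b' :: u).length b (bra (b' :: u)) y -
      ci' (b' :: u).length b (bra (b' :: u)) y

/-- the iterated product -/
def pro : List ℕ → (ℕ → ℚ) → ℚ
  | [], _ => 1
  | b :: u, y => ci u.length b (pro u) y

/-- the list of the first values -/
def lst (m : ℕ) (y : ℕ → ℚ) : List ℚ := (List.range m).map y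

@[simp] lemma lst_zero (y : ℕ → ℚ) : lst 0 y = [] := rfl

lemma lst_succ (m : ℕ) (y : ℕ → ℚ) : lst (m + 1) y = y 0 :: lst m (fun i => y (i + 1)) := by
  unfold lst
  rw [List.range_succ_eq_map, List.map_cons, List.map_map]
  rfl

lemma lst_snoc (m : ℕ) (y : ℕ → ℚ) : lst (m + 1) y = lst m y ++ [y m] := by
  unfold lst
  rw [List.range_succ, List.map_append]
  rfl

@[simp] lemma lst_length (m : ℕ) (y : ℕ → ℚ) : (lst m y).length = m := by simp [lst]

lemma lst_map (m : ℕ) (y : ℕ → ℚ) (f : ℚ → ℚ) : (lst m y).map f = lst m (fun i => f (y i)) := by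
  unfold lst
  rw [List.map_map]
  rfl

lemma D_ci (b : ℕ) (q : ℚ) (s : ℕ) : ∀ (p : Option ℚ) (y : ℕ → ℚ) (G : List ℚ → ℚ),
    D b p (lst (s + 1) y) q G = (y s - q) ^ (2 * b) * G (lst s y) +
      ∑ j ∈ range s, (y j - y (j + 1)) ^ (2 * b) *
        (G ((lst (s + 1) y).eraseIdx j) - G ((lst (s + 1) y).eraseIdx (j + 1))) -
      ko b p (y 0) * G ((lst (s + 1) y).eraseIdx 0) := by
  induction s with
  | zero =>
    intro p y G
    simp only [lst_succ, lst_zero, D_cons, D_nil, List.headD_nil, range_zero, sum_empty,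
      List.eraseIdx_cons_zero]
    ring
  | succ s ih =>
    intro p y G
    rw [lst_succ (s + 1) y, D_cons, ih, sum_range_succ']
    simp only [List.eraseIdx_cons_succ, List.eraseIdx_cons_zero, ko_some, zero_add]
    have h1 : (lst (s + 1) (fun i => y (i + 1))).headD q = y 1 := by
      rw [lst_succ]
      rfl
    have h2 : y 0 :: lst s (fun i => y (i + 1)) = lst (s + 1) y := (lst_succ s y).symm
    rw [h1, h2]
    ring

lemma lst_om (s : ℕ) : ∀ (j : ℕ) (_ : j ≤ s) (y : ℕ → ℚ),
    lst s (om j y) = (lst (s + 1) y).eraseIdx j := by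
  induction s with
  | zero =>
    intro j hj y
    have : j = 0 := by omega
    subst this
    rfl
  | succ s ih =>
    intro j hj y
    cases j with
    | zero =>
      rw [lst_succ (s + 1) y, List.eraseIdx_cons_zero]
      congr 1
    | succ j =>
      rw [lst_succ (s + 1) y, List.eraseIdx_cons_succ, ← ih j (by omega), lst_succ]
      congr 1
      congr 1
      funext i
      unfold om
      simp only [Nat.add_lt_add_iff_right]

/-- `f ∘ g` for lists -/
lemma ci_eq (s b : ℕ) (g : (ℕ → ℚ) → ℚ) (G : List ℚ → ℚ) (h : ∀ y, g y = G (lst s y)) (y : ℕ → ℚ) :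
    ci s b g y = D b none (lst (s + 1) y) 0 G := by
  rw [D_ci, ci, ko_none, zero_mul, sub_zero, sub_zero, h y]
  congr 1
  apply sum_congr rfl
  intro j hj
  rw [mem_range] at hj
  rw [h, h, lst_om s j (by omega), lst_om s (j + 1) (by omega)]

lemma pro_eq (w : List ℕ) : ∀ y : ℕ → ℚ, pro w y = R w none (lst w.length y) 0 := by
  induction w with
  | nil => intro y; rfl
  | cons b w ih =>
    intro y
    rw [R_cons, List.length_cons]
    show ci w.length b (pro w) y = _
    rw [ci_eq w.length b (pro w) (fun l => R w none l 0) ih]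

/-- translations -/
lemma Br_tr (b : ℕ) (c : ℚ) (w : List ℕ) : ∀ (ys : List ℚ) (q : ℚ),
    Br b w (ys.map (fun x => x - c)) (q - c) = Br b w ys q := by
  induction w with
  | nil =>
    intro ys q
    match ys with
    | [] => rfl
    | [x] =>
      simp only [List.map_cons, List.map_nil, Br_one]
      congr 1
      ring
    | _ :: _ :: _ => rfl
  | cons a w ih =>
    intro ys q
    match ys with
    | [] => rfl
    | y :: ys =>
      have hl : ∀ (ys : List ℚ) (y : ℚ), (ys.map (fun x => x - c)).getLastD (y - c) =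
          ys.getLastD y - c := by
        intro ys
        induction ys with
        | nil => intro y; rfl
        | cons z zs ihz => intro y; rw [List.map_cons, List.getLastD_cons, List.getLastD_cons, ihz]
      have hD := D_aff 1 (-c) a q (y :: ys) 1 none (fun l => Br b w l q)
        (fun l => Br b w l (q - c)) (fun l => by
          rw [one_mul, ← ih l q]
          congr 2
          funext x
          ring)
      rw [one_pow, one_mul, one_mul, Option.map_none, one_mul] at hD
      have hf : (fun x : ℚ => 1 * x + -c) = fun x => x - c := by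
        funext x
        ring
      rw [hf, ← sub_eq_add_neg] at hD
      rw [Br_cons, ← hD, List.map_cons, Br_cons, hl, ih, ← List.map_cons (f := fun x => x - c),
        ← List.map_dropLast, ih, List.length_map, ← List.map_reverse, ih]
      have e1 : y - c - (q - c) = y - q := by ring
      have e2 : ys.getLastD y - c - (q - c) = ys.getLastD y - q := by ring
      rw [e1, e2]

lemma lst_rev (s : ℕ) (y : ℕ → ℚ) :
    lst s (fun i => y (s - i)) = (lst s (fun i => y (i + 1))).reverse := by
  induction s with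
  | zero => rfl
  | succ s ih =>
    rw [lst_succ, lst_snoc s (fun i => y (i + 1)), List.reverse_append, List.reverse_singleton,
      List.singleton_append, ← ih]
    congr 1
    congr 1
    funext i
    congr 1
    omega

lemma bra_cons (a : ℕ) (v : List ℕ) (hv : v ≠ []) (y : ℕ → ℚ) :
    bra (a :: v) y = ci v.length a (bra v) y - ci' v.length a (bra v) y := by
  match v, hv with
  | _ :: _, _ => rfl

lemma lst_last (s : ℕ) (y : ℕ → ℚ) : (lst s (fun i => y (i + 1))).getLastD (y 0) = y s := by
  cases s with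
  | zero => rfl
  | succ s => rw [lst_snoc]; simp

/-- the bracket for lists -/
lemma bra_eq (b : ℕ) (w : List ℕ) : ∀ y : ℕ → ℚ,
    bra (w ++ [b]) y = Br b w (lst (w.length + 1) y) 0 := by
  induction w with
  | nil =>
    intro y
    show y 0 ^ (2 * b) = (y 0 - 0) ^ (2 * b)
    rw [sub_zero]
  | cons a w ih =>
    intro y
    set s := w.length + 1 with hs
    have hlen : (w ++ [b]).length = s := by simp [hs]
    rw [List.cons_append, bra_cons a (w ++ [b]) (by simp), hlen,
      ci_eq s a (bra (w ++ [b])) (fun l => Br b w l 0) ih, List.length_cons, ← hs]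
    rw [lst_succ s y, Br_cons]
    have h1 : (y 0 :: lst s (fun i => y (i + 1))).dropLast = lst s y := by
      rw [← lst_succ, lst_snoc, List.dropLast_concat]
    rw [h1, lst_last, ci']
    have h2 : bra (w ++ [b]) (fun i => y (i + 1)) = Br b w (lst s (fun i => y (i + 1))) 0 := ih _
    have h3 : bra (w ++ [b]) (fun i => y i - y s) = Br b w (lst s y) (y s) := by
      rw [ih, ← Br_tr b (y s) w (lst s y) (y s), lst_map, sub_self]
    have h4 : bra (w ++ [b]) (fun i => y (s - i) - y 0) =
        Br b w (lst s (fun i => y (i + 1))).reverse (y 0) := by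
      rw [ih, ← Br_tr b (y 0) w _ (y 0), ← lst_rev, lst_map, sub_self]
    rw [h2, h3, h4, lst_length]
    ring

/-- every list is a list of values -/
lemma lst_surj (ys : List ℚ) : ∃ y : ℕ → ℚ, lst ys.length y = ys := by
  refine ⟨fun i => ys.getD i 0, ?_⟩
  apply List.ext_getElem (by simp)
  intro i h1 h2
  simp [lst, List.getD_eq_getElem?_getD, h2]

end Pool.Agent.D0H20.BK
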